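import Mathlib

/-!
# Cones of cycles on projective bundles over the plane: definitions

`P² × P^(N-1)` has the bigraded coordinate ring `A N = ℂ[x₀, x₁, x₂, w₀, …, w_{N-1}]`.
A vector bundle of rank `r` on `P²` is given (after dualising and a twist by a line bundle) as
the kernel of a matrix of forms of constant rank; its projectivisation is the closed subvariety
`{(x, [w]) : M(x) w = 0}` of `P² × P^(N-1)`. Closed subvarieties are bihomogeneous prime ideals,
and their intersection numbers with `h` and `ξ` are read off from the growth of the bigraded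
Hilbert function.
-/

set_option autoImplicit false

open MvPolynomial Filter Topology
open scoped Nat

namespace Q36.PB

/-- The coordinate ring `ℂ[x₀, x₁, x₂, w₀, …, w_{N-1}]` of `P² × P^(N-1)`. -/
abbrev A (N : ℕ) : Type := MvPolynomial (Fin 3 ⊕ Fin N) ℂ

/-- The bidegrees of the variables. -/
def wt (N : ℕ) : Fin 3 ⊕ Fin N → ℕ × ℕ := Sum.elim (fun _ => (1, 0)) (fun _ => (0, 1))

/-- The bihomogeneous polynomials of bidegree `(a, b)`. -/
noncomputable def bi (N a b : ℕ) : Submodule ℂ (A N) :=
  weightedHomogeneousSubmodule ℂ (wt N) (a, b)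

/-- The dimension of the image of the bihomogeneous polynomials of bidegree `(a, b)` in the
quotient by `P` (the bigraded Hilbert function). -/
noncomputable def hf {N : ℕ} (P : Ideal (A N)) (a b : ℕ) : ℕ :=
  Module.finrank ℂ ((bi N a b).map (Ideal.Quotient.mkₐ ℂ P).toLinearMap)

/-- Bihomogeneous ideals. -/
def BiHom {N : ℕ} (P : Ideal (A N)) : Prop :=
  ∀ p ∈ P, ∀ d : ℕ × ℕ, weightedHomogeneousComponent (wt N) d p ∈ P

/-- A vector bundle of rank `r` on `P²`, presented as the kernel of a matrix of forms which has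
constant rank: the fibre at `x` is `{w ∈ ℂ^N : M(x) w = 0}`, the dual of the fibre of the
bundle `E` whose projectivisation (one dimensional quotients) is considered. -/
structure Bundle (r : ℕ) where
  /-- the size of the trivial bundle -/
  N : ℕ
  /-- the number of rows -/
  m : ℕ
  /-- the degrees of the rows -/
  deg : Fin m → ℕ
  /-- the matrix -/
  M : Fin m → Fin N → MvPolynomial (Fin 3) ℂ
  hom : ∀ i j, (M i j).IsHomogeneous (deg i)
  rank : ∀ x : Fin 3 → ℂ, x ≠ 0 →
    Module.finrank ℂ (LinearMap.ker (Matrix.mulVecLin (Matrix.of fun i j => eval x (M i j)))) = r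

/-- The equations of `P(E)` in `P² × P^(N-1)`. -/
noncomputable def Bundle.eqn {r : ℕ} (B : Bundle r) (i : Fin B.m) : A B.N :=
  ∑ j, rename Sum.inl (B.M i j) * X (Sum.inr j)

/-- The bihomogeneous prime ideals of the closed subvarieties of `P(E)`. -/
structure IsSub {r : ℕ} (B : Bundle r) (P : Ideal (A B.N)) : Prop where
  prime : P.IsPrime
  hom : BiHom P
  x_notMem : ∃ i, (X (Sum.inl i) : A B.N) ∉ P
  w_notMem : ∃ j, (X (Sum.inr j) : A B.N) ∉ P
  eqn_mem : ∀ i, B.eqn i ∈ P

/-- `s i` is the intersection number `V · h^i · ξ^(m-i)` (`i = 0, 1, 2`) of the subvariety `V` of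
dimension `m` given by `P`: these are the numbers for which
`dim (A/P)_(na,nb) = n^m ∑ i, s i a^i b^(m-i) / (i! (m-i)!) + o(n^m)` for all `a, b > 0`,
the right hand side being `(n(ah + bξ))^m · V / m!`. -/
def HasClass {N : ℕ} (P : Ideal (A N)) (m : ℕ) (s : Fin 3 → ℝ) : Prop :=
  (∀ i : Fin 3, m < (i : ℕ) → s i = 0) ∧
  ∀ a b : ℕ, 0 < a → 0 < b →
    Tendsto (fun n : ℕ => (hf P (n * a) (n * b) : ℝ) / (n : ℝ) ^ m) atTop
      (𝓝 (∑ i : Fin 3, s i * (a : ℝ) ^ (i : ℕ) * (b : ℝ) ^ (m - i) / ((i : ℕ)! * (m - i)! : ℝ)))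

/-- The pseudo-effective cone of cycles of codimension `k` on `P(E)`, which has dimension
`r + 1`, in the coordinates given by the intersection numbers with the `h^i ξ^(r+1-k-i)`. -/
def eff {r : ℕ} (B : Bundle r) (k : ℕ) : Set (Fin 3 → ℝ) :=
  closure (PointedCone.hull ℝ {s | ∃ P, IsSub B P ∧ HasClass P (r + 1 - k) s} :
    Set (Fin 3 → ℝ))

/-- A cone is simplicial if it is the set of nonnegative combinations of a linearly independent
family. -/
def IsSimplicial (C : Set (Fin 3 → ℝ)) : Prop :=
  ∃ (ι : Type) (v : ι → Fin 3 → ℝ), LinearIndependent ℝ v ∧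
    C = (PointedCone.hull ℝ (Set.range v) : Set (Fin 3 → ℝ))

end Q36.PB
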