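import Mathlib
import Pool.Agent.Q36.PB.Def

/-!
# Statements of the lemmas of project PB (MP_f1b239_ag), with complete proofs in the docstrings
-/

set_option autoImplicit false

open MvPolynomial Filter Topology

namespace Q36.PB

/-! ## Part 1: algebra (no gradings) -/

/-- JOB PRM. If `x` is a prime element of the domain `B` and `x ∤ β`, then `x^k T + β` generates a
prime ideal of `B[T]`.
Proof: let `K = Localization.Away x` and `φ : B[T] → K` the evaluation at `T = -β / x^k`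
(`K` is a domain containing `B`). It suffices to show `ker φ = (x^k T + β) =: (ℓ)`.
`ℓ ∈ ker φ` is clear. Let `φ f = 0`. (i) There are `N` and `g` with `x^N f = g ℓ + C c`, `c ∈ B`
(induction on the degree: `x^k (a T^(n+1)) = a T^n ℓ - a β T^n`), and applying `φ` gives `c = 0`.
(ii) if `x h = g ℓ` then `x ∣ g`: look at the prime ideal `(x)` of `B[T]` (`C x` is prime in
`B[T]`, `Polynomial.prime_C_iff`): it does not contain `ℓ` as the constant coefficient `β` is not
divisible by `x` (for `k = 0` one has the coefficient `1` too). So `g = x g'` and `h = g' ℓ`. By induction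
on `N` we get `f ∈ (ℓ)`. -/
def S_PRM : Prop := ∀ (B : Type) [CommRing B] [IsDomain B] (x β : B) (k : ℕ), Prime x → ¬ x ∣ β →
  (Ideal.span {Polynomial.C (x ^ k) * Polynomial.X + Polynomial.C β} :
    Ideal (Polynomial B)).IsPrime

/-- JOB NAG (Nagata's criterion). Let `R` be a noetherian domain, `x` a prime element, and let the
localisation `K` of `R` away from `x` be factorial. Then `R` is factorial.
Proof: Kaplansky's criterion `UniqueFactorizationMonoid.iff_exists_prime_mem_of_isPrime` of Mathlib: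
every nonzero prime ideal `I` of `R` contains a prime element. If `x ∈ I` take `x`. Otherwise the
extension of `I` to `K` is a nonzero prime ideal; it contains a prime element, which is a unit times
the image of some `π ∈ R`, `π ∈ I` (as `x ∉ I`). Write `π = x^m π'` with `x ∤ π'` (noetherian).
`π' ∈ I` and `π'` is prime in `K`. `π'` is prime in `R`: if `π' ∣ a b` then in `K` it divides
`a`, say, so `π' c = x^N a` in `R`; `x` is prime and does not divide `π'`, so `x^N ∣ c` and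
`π' ∣ a`. -/
def S_NAG : Prop := ∀ (R K : Type) [CommRing R] [IsDomain R] [IsNoetherianRing R] [CommRing K]
  [IsDomain K] [Algebra R K] (x : R) [IsLocalization.Away x K] [UniqueFactorizationMonoid K],
  Prime x → UniqueFactorizationMonoid R

/-- JOB UFB. Let `B` be a noetherian factorial domain, `x` a prime element, `β ∈ B` with `x ∤ β`
and `(x, β)` a prime ideal, `k ≥ 1`. Then `R = B[T]/(x^k T + β)` is factorial.
Proof: `R` is a domain by `S_PRM`. `x` is prime in `R`: `R/(x) = B[T]/(x, x^k T + β) = B[T]/(x, β)`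
`= (B/(x, β))[T]` is a domain, and `x ≠ 0` in `R` (otherwise `x ∈ (x^k T + β)`, look at degrees in
`T`; or: the evaluation at `-β/x^k` in `B[1/x]` factors over `R`). The map `R → B[1/x]`,
`T ↦ -β/x^k`, makes `B[1/x]` the localisation of `R` away from `x` (it is injective: as in the proof of
`S_PRM`, its kernel on `B[T]` is `(x^k T + β)`; surjective up to powers of `x`: clear), and
`B[1/x]` is factorial (Mathlib has the instance for `Localization`). Apply `S_NAG`. -/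
def S_UFB : Prop := ∀ (B : Type) [CommRing B] [IsDomain B] [IsNoetherianRing B]
  [UniqueFactorizationMonoid B] (x β : B) (k : ℕ), Prime x → ¬ x ∣ β →
  (Ideal.span {x, β} : Ideal B).IsPrime → 1 ≤ k →
  UniqueFactorizationMonoid
    (Polynomial B ⧸ (Ideal.span {Polynomial.C (x ^ k) * Polynomial.X + Polynomial.C β} :
      Ideal (Polynomial B)))

/-- The form `x₀² u₀ + x₁² u₁ + x₂² u₂`. -/
noncomputable def q : A 3 := ∑ i, X (Sum.inl i) ^ 2 * X (Sum.inr i)

/-- JOB QPR. Let `q = x₀² u₀ + x₁² u₁ + x₂² u₂ ∈ ℂ[x, u]`. The ideals `(q)` and `(q, u₀)` are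
prime, `u₀ ∉ (q)` and `x₀, x₁ ∉ (q, u₀)`, `u₁ ∉ (q, u₀)`, and the quotient by `(q)` is factorial.
Proof: with `B = ℂ[x₀, x₁, x₂, u₁, u₂]`, `x = x₀`, `β = x₁² u₁ + x₂² u₂`, `k = 2` one has
`A 3 ≅ B[T]`, `u₀ ↔ T`, `q ↔ x² T + β`. Here `(x₀, β)` is prime: `B/(x₀) = ℂ[x₁, x₂, u₂][u₁]` and
`β = x₁² u₁ + x₂² u₂` generates a prime ideal by `S_PRM`. Similarly for `(q, u₀)`:
the quotient by `u₀` is `B`, and `β` generates a prime ideal of `B = ℂ[x₀, x₁, x₂, u₂][u₁]` by
`S_PRM`. The non-membership statements: substitute suitable numbers (`(q, u₀)` vanishes at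
`x = (1, 1, 0)`, `u = (0, 0, 1)` and at `x = (0, 0, 0)`, `u = (0, 1, 0)`; `(q)` vanishes at `x = 0`,
`u = (1, 0, 0)`). -/
def S_QPR : Prop :=
  (Ideal.span {q}).IsPrime ∧ UniqueFactorizationMonoid (A 3 ⧸ Ideal.span {q}) ∧
  (Ideal.span {q, X (Sum.inr 0)}).IsPrime ∧ (X (Sum.inr 0) : A 3) ∉ Ideal.span {q} ∧
  (X (Sum.inl 0) : A 3) ∉ Ideal.span {q, X (Sum.inr 0)} ∧
  (X (Sum.inr 1) : A 3) ∉ Ideal.span {q, X (Sum.inr 0)}

/-- JOB MIN. Let `P ≠ (q)` be a bihomogeneous prime ideal of `A 3` which contains `q`. There is a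
bihomogeneous `g ∈ P`, not in `(q)`, such that either `P = (q, g)`, or there is a bihomogeneous
`f ∈ P` which is a nonzerodivisor modulo `(q, g)` (for bihomogeneous elements).
Proof: let `R = A 3/(q)`, a factorial domain (`S_QPR`), `𝔭` the image of `P`, a nonzero prime ideal. Let
`g` be a bihomogeneous element of `P`, not in `(q)`, of minimal total degree (there is one, since the
bihomogeneous components of elements of `P` are in `P`; `q` is bihomogeneous, so `(q)` is too). In `R`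
the element `g` is a product of primes, one of which, `π`, is in `𝔭`; write `g = π a` in `R`,
i.e. `g - π a ∈ (q)` for lifts `π ∈ P`, `a` in `A 3`.
(1) The constant coefficient `a₀` of `a` can be taken nonzero. Replace `π` and `a` by the sum of
their (total degree) homogeneous components not in `(q)`. Let `π_l`, `a_m` be the nonzero components of lowest
total degree. Then `π_l a_m ∉ (q)` is the component of total degree `l + m` of `π a`, modulo `(q)`,
so that `l + m = deg g`. Since `π_l ∈ P ∖ (q)` (P is homogeneous), one of its bihomogeneous components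
is in `P ∖ (q)`, so that `l ≥ deg g`; hence `m = 0`.
(2) If `f` is bihomogeneous and `f ∈ (π)` in `R`, then `f ∈ (q, g)`: `f = π b`, so `a f = g b` in `R`;
take the component of bidegree `deg f`: it is `a₀ f = g b'` with a component `b'` of `b`.
(3) If `P ≠ (q, g)`, there is a bihomogeneous `f ∈ P`, `f ∉ (q, g)`. By (2) `f ∉ (π)` in `R`. If
`f h ∈ (q, g) ⊆ (q, π)` with `h` bihomogeneous, then `h ∈ (q, π)` as `π` is prime in `R`, and
`h ∈ (q, g)` by (2). -/
def S_MIN : Prop := ∀ P : Ideal (A 3), P.IsPrime → BiHom P → q ∈ P → P ≠ Ideal.span {q} →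
  ∃ (c d : ℕ) (g : A 3), g ∈ bi 3 c d ∧ g ∈ P ∧ g ∉ Ideal.span {q} ∧
    (P = Ideal.span {q, g} ∨ ∃ (c' d' : ℕ) (f : A 3), f ∈ bi 3 c' d' ∧ f ∈ P ∧
      ∀ (a b : ℕ) (h : A 3), h ∈ bi 3 a b → f * h ∈ Ideal.span {q, g} → h ∈ Ideal.span {q, g})

/-! ## Part 2: Hilbert functions -/

/-- JOB FIN. The spaces of bihomogeneous polynomials are finite dimensional, and their dimensions are the
numbers of monomials; the ideal generated by bihomogeneous elements is bihomogeneous; the function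
`hf` decreases when the ideal grows.
Proof: `weightedHomogeneousSubmodule` is spanned by the monomials `X^m` with `weight m = (a, b)`
(`weightedHomogeneousSubmodule_eq_finsupp_supported`), these are the `m` with `∑ m (inl i) = a`,
`∑ m (inr j) = b`: finitely many. For `N = 3` their number is
`(a+2 choose 2) (b+2 choose 2)`. For generators `g` of bidegree `e` and `p = ∑ c_g g`, the component
of bidegree `d` of `p` is `∑ (c_g)_{d-e} g`. The map between the quotients is surjective. -/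
def S_FIN : Prop :=
  (∀ N a b, Module.Finite ℂ (bi N a b)) ∧
  (∀ a b, hf (⊥ : Ideal (A 3)) a b = (a + 2).choose 2 * (b + 2).choose 2) ∧
  (∀ (N : ℕ) (S : Set (A N)), (∀ g ∈ S, ∃ c d, g ∈ bi N c d) → BiHom (Ideal.span S)) ∧
  (∀ (N : ℕ) (I J : Ideal (A N)) (a b : ℕ), I ≤ J → hf J a b ≤ hf I a b)

/-- JOB DRP (exact sequence). Let `I` be a bihomogeneous ideal and `f` bihomogeneous of bidegree
`(c, d)`, a nonzerodivisor modulo `I` for bihomogeneous elements. Then
`hf (I + (f)) (a + c) (b + d) + hf I a b = hf I (a + c) (b + d)`.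
Proof: with `V_I(a, b) = A_(a,b) / (I ∩ A_(a,b))` (of dimension `hf I a b`), multiplication by `f`
is an injective map `V_I(a, b) → V_I(a+c, b+d)`, and its cokernel is `V_{I+(f)}(a+c, b+d)`:
if `p ∈ A_(a+c,b+d)` is in `I + (f)`, then `p = i + f h`; taking the component of bidegree `(a+c,b+d)`,
we may take `h ∈ A_(a,b)` and `i ∈ I` bihomogeneous. Use rank-nullity (`Module.Finite` from `S_FIN`). -/
def S_DRP : Prop := ∀ (N : ℕ) (I : Ideal (A N)) (c d : ℕ) (f : A N), BiHom I → f ∈ bi N c d →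
  (∀ (a b : ℕ) (h : A N), h ∈ bi N a b → f * h ∈ I → h ∈ I) →
  ∀ a b : ℕ, hf (I ⊔ Ideal.span {f}) (a + c) (b + d) + hf I a b = hf I (a + c) (b + d)

/-- JOB LIM (numbers). Let `Q` and `G` be functions with
`Q (a+2) (b+1) + p a b = p (a+2) (b+1)`, `p a b = (a+2 choose 2)(b+2 choose 2)`, and
`G (a+c) (b+d) + Q a b = Q (a+c) (b+d)`. Then
(1) `G (na) (nb) / n²` tends to `c b² + (c + 2d) a b + d a²/2`; and if `H (a+c') (b+d') + G a b ≤ G (a+c')(b+d')`
for all `a, b`, then `H (na) (nb) / n² → 0`;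
(2) `Q (n) (n) / n²` tends to infinity (`Q (n+2) (n+1) = p (n+2) (n+1) - p n n`; compute: it
is a polynomial in `n` of degree `3`).
Proof: `p a b = (a+2)(a+1)(b+2)(b+1)/4` is a polynomial; for `a ≥ 2 + c`, `b ≥ 1 + d`
`Q a b = p a b - p (a-2) (b-1)` and `G a b = Q a b - Q (a-c) (b-d)` are polynomials as well,
(over the reals) and `G a b = c b² + (c+2d) a b + d a²/2 +` (terms of degree at most `1`), `H a b` is bounded by
`G a b - G (a-c') (b-d')`, a polynomial of degree at most `1`. -/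
def S_LIM : Prop := ∀ (Q : ℕ → ℕ → ℕ),
  (∀ a b, Q (a + 2) (b + 1) + (a + 2).choose 2 * (b + 2).choose 2 =
    (a + 4).choose 2 * (b + 3).choose 2) →
  (Tendsto (fun n : ℕ => (Q (n * 1) (n * 1) : ℝ) / (n : ℝ) ^ 2) atTop atTop) ∧
  ∀ (c d : ℕ) (G : ℕ → ℕ → ℕ), (∀ a b, G (a + c) (b + d) + Q a b = Q (a + c) (b + d)) →
    (∀ a b : ℕ, 0 < a → 0 < b → Tendsto (fun n : ℕ => (G (n * a) (n * b) : ℝ) / (n : ℝ) ^ 2) atTop
      (𝓝 ((c : ℝ) * b ^ 2 + (c + 2 * d) * a * b + d * a ^ 2 / 2))) ∧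
    ∀ (c' d' : ℕ) (H : ℕ → ℕ → ℕ),
      (∀ a b, H (a + c') (b + d') + G a b ≤ G (a + c') (b + d')) →
      ∀ a b : ℕ, 0 < a → 0 < b →
        Tendsto (fun n : ℕ => (H (n * a) (n * b) : ℝ) / (n : ℝ) ^ 2) atTop (𝓝 0)

/-- JOB REL (assembly of Part 1 and Part 2). Every closed subvariety of `{q = 0} ⊂ P² × P²` with a class satisfies
`s₁ = 2 s₂ + s₀/2` and `s₀, s₂ ≥ 0`; the surface `u₀ = 0` has `s = (0, 2, 1)`.
Proof: for `P = (q)` there is no class (`S_LIM`, first part). Otherwise take `g` from `S_MIN`; `g` is a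
nonzerodivisor modulo the prime ideal `(q)`, so `S_DRP` gives the recursion for `G = hf (q, g)`
(`Q = hf (q)` has its recursion from `S_DRP` with `I = ⊥`, `f = q ∈ bi 3 2 1`). If `P = (q, g)`, the
limits of `S_LIM` and uniqueness of limits give
`s₀ b²/2 + s₁ a b + s₂ a²/2 = c b² + (c + 2d) a b + d a²/2` for all `a, b ≥ 1`, so `s₀ = 2c`, `s₁ = c + 2d`,
`s₂ = d`. Otherwise `H = hf P ≤ hf (q, g, f)` satisfies the inequality and `s = 0`. -/
def S_REL : Prop :=
  (∀ (P : Ideal (A 3)) (s : Fin 3 → ℝ), P.IsPrime → BiHom P → q ∈ P → HasClass P 2 s →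
    s 1 = 2 * s 2 + s 0 / 2 ∧ 0 ≤ s 0 ∧ 0 ≤ s 2) ∧
  HasClass (Ideal.span {q, X (Sum.inr 0)} : Ideal (A 3)) 2 ![0, 2, 1]

/-! ## Part 3: the bundle -/

/-- The matrix of the bundle: its kernel at `x` is
`{(u, v) : x₀² u₀ + x₁² u₁ + x₂² u₂ = 0, v ∈ ℂ x}`. -/
noncomputable def M0 : Fin 4 → Fin 6 → MvPolynomial (Fin 3) ℂ :=
  ![![X 0 ^ 2, X 1 ^ 2, X 2 ^ 2, 0, 0, 0], ![0, 0, 0, 0, X 2, -X 1],
    ![0, 0, 0, -X 2, 0, X 0], ![0, 0, 0, X 1, -X 0, 0]]

/-- JOB RNK. The matrix has homogeneous rows, and its kernel has dimension `3` at every point `x ≠ 0`.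
Proof: the kernel is the product of `{u ∈ ℂ³ : ∑ x_i² u_i = 0}`, of dimension `2` (as some `x_i² ≠ 0`), and of
`{v ∈ ℂ³ : v × x = 0} = ℂ x`, of dimension `1`. For instance: say `x₀ ≠ 0`; then
`(u₁, u₂, t) ↦ (-(x₁² u₁ + x₂² u₂)/x₀², u₁, u₂, t x₀, t x₁, t x₂)` is a linear isomorphism of
`ℂ³` onto the kernel. -/
def S_RNK : Prop :=
  (∀ i j, (M0 i j).IsHomogeneous ((![2, 1, 1, 1] : Fin 4 → ℕ) i)) ∧
  ∀ x : Fin 3 → ℂ, x ≠ 0 →
    Module.finrank ℂ (LinearMap.ker (Matrix.mulVecLin (Matrix.of fun i j => eval x (M0 i j)))) = 3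

/-- The ideal contains the equations of `P(E)`, in readable form (the variables `w` are
`u₀, u₁, u₂, v₀, v₁, v₂`). -/
def Eqns (P : Ideal (A 6)) : Prop :=
  (X (Sum.inl 0) ^ 2 * X (Sum.inr 0) + X (Sum.inl 1) ^ 2 * X (Sum.inr 1) +
    X (Sum.inl 2) ^ 2 * X (Sum.inr 2) ∈ P) ∧
  (X (Sum.inl 2) * X (Sum.inr 4) - X (Sum.inl 1) * X (Sum.inr 5) ∈ P) ∧
  (X (Sum.inl 0) * X (Sum.inr 5) - X (Sum.inl 2) * X (Sum.inr 3) ∈ P) ∧
  (X (Sum.inl 1) * X (Sum.inr 3) - X (Sum.inl 0) * X (Sum.inr 4) ∈ P)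

/-- JOB LAM. If `P` is a prime ideal of `A 6` which contains the equations but not all three of
`v₀, v₁, v₂` (= `X (inr 3), X (inr 4), X (inr 5)`), and not all of `x₀, x₁, x₂`, then `hf P (a + 1) b ≤ hf P a (b + 1)`.
Proof: let `v_j ∉ P`. Some `x_i ∉ P`; `v_j x_i - v_i x_j ∈ P` shows `x_j ∉ P`. Let `D = A 6/P`, a
domain, `D_(a,b)` the image of `A_(a,b)`. Then `v_j D_(a+1,b) ⊆ x_j D_(a,b+1)`: an element of `A_(a+1,b)` is
`g = ∑ g_i x_i` with `g_i ∈ A_(a,b)`, and `v_j g = ∑ g_i x_i v_j ≡ x_j ∑ g_i v_i` modulo `P`. Multiplication by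
`v_j` and `x_j` is injective on `D`, so the dimensions satisfy the inequality (`Module.Finite`
from `S_FIN`). -/
def S_LAM : Prop := ∀ P : Ideal (A 6), P.IsPrime → Eqns P →
  (∃ i, (X (Sum.inl i) : A 6) ∉ P) →
  ((X (Sum.inr 3) : A 6) ∉ P ∨ (X (Sum.inr 4) : A 6) ∉ P ∨ (X (Sum.inr 5) : A 6) ∉ P) →
  ∀ a b, hf P (a + 1) b ≤ hf P a (b + 1)

/-- JOB INQ. A class has `s₀ ≥ 0` and `s₂ ≥ 0`; if `hf P (a + 1) b ≤ hf P a (b + 1)` for all `a, b`,
then `s₂ ≤ s₁ ≤ s₀`.
Proof: let `Q(a, b) = s₀ b²/2 + s₁ a b + s₂ a²/2`, the limit of `hf P (na) (nb)/n²`. `Q(a, b) ≥ 0` for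
all `a, b ≥ 1`; `b = 1`, `a → ∞` gives `s₂ ≥ 0`, and similarly `s₀ ≥ 0`. The inequality gives (n times)
`hf P (n(a+1)) (nb) ≤ hf P (na) (n(b+1))`, so `Q(a+1, b) ≤ Q(a, b+1)`, i.e.
`s₀ (2b+1)/2 + s₁ (a - b) - s₂ (2a+1)/2 ≥ 0` for all `a, b ≥ 1`; `a → ∞` gives `s₁ ≥ s₂`, `b → ∞` gives
`s₀ ≥ s₁`. -/
def S_INQ : Prop := ∀ (N : ℕ) (P : Ideal (A N)) (s : Fin 3 → ℝ), HasClass P 2 s →
  0 ≤ s 0 ∧ 0 ≤ s 2 ∧ ((∀ a b, hf P (a + 1) b ≤ hf P a (b + 1)) → s 2 ≤ s 1 ∧ s 1 ≤ s 0)

/-- The projection `A 6 → A 3`, `v₀, v₁, v₂ ↦ 0`. -/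
noncomputable def pr : A 6 →ₐ[ℂ] A 3 :=
  aeval (Sum.elim (fun i => X (Sum.inl i)) ![X (Sum.inr 0), X (Sum.inr 1), X (Sum.inr 2), 0, 0, 0])

/-- JOB TRH. Transfer between `A 3` and `A 6`: ideals of `A 3` are pulled back along `pr`, without changing the
Hilbert function; and every ideal of `A 6` which contains `v₀, v₁, v₂` is of this form.
Proof: `pr` is surjective and maps `A_(a,b)` onto `A_(a,b)`, and commutes with taking components.
The kernel of `pr` is generated by `v₀, v₁, v₂`. `A 6/pr⁻¹ P' ≅ A 3/P'`. -/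
def S_TRH : Prop :=
  (∀ (P : Ideal (A 3)) (a b : ℕ), hf (P.comap pr.toRingHom) a b = hf P a b) ∧
  (∀ P : Ideal (A 3), BiHom (P.comap pr.toRingHom) ↔ BiHom P) ∧
  (∀ P : Ideal (A 6), (X (Sum.inr 3) : A 6) ∈ P → (X (Sum.inr 4) : A 6) ∈ P →
    (X (Sum.inr 5) : A 6) ∈ P → ∃ P' : Ideal (A 3), P = P'.comap pr.toRingHom)

/-- JOB GRK (graded kernels). Let `φ : A N → ℂ[τ]` be an algebra homomorphism, `w : τ → ℕ × ℕ`, and let `φ` map the variables
to weighted homogeneous elements: `φ (x_i)` of weight `(1, 0)` and `φ (w_j)` of weight `(1, 1)`. Then the kernel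
of `φ` is a bihomogeneous prime ideal and `hf (ker φ) a b` is the dimension of `φ(A_(a,b))`.
Proof: `φ` maps `A_(a,b)` to the polynomials of weight `(a + b, b)`; the map
`(a, b) ↦ (a + b, b)` is injective, so that the components of `φ p` are the images of the components of `p`.
`A N / ker φ → ℂ[τ]` is injective. -/
def S_GRK : Prop := ∀ (N : ℕ) (τ : Type) (w : τ → ℕ × ℕ) (φ : A N →ₐ[ℂ] MvPolynomial τ ℂ),
  (∀ i, IsWeightedHomogeneous w (φ (X (Sum.inl i))) (1, 0)) →
  (∀ j, IsWeightedHomogeneous w (φ (X (Sum.inr j))) (1, 1)) →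
  (RingHom.ker φ).IsPrime ∧ BiHom (RingHom.ker φ) ∧
  ∀ a b, hf (RingHom.ker φ) a b = Module.finrank ℂ ((bi N a b).map φ.toLinearMap)

/-- The parametrisation of the fibre over `(1 : 0 : 0)`; variables `x₀, u₁, u₂, v₀` of the target. -/
noncomputable def phiA : A 6 →ₐ[ℂ] MvPolynomial (Fin 4) ℂ :=
  aeval (Sum.elim ![X 0, 0, 0] ![0, X 1, X 2, X 3, 0, 0])

/-- The parametrisation of the surface over the line `x₀ = 0`; variables `x₁, x₂, u₀, l` of the target. -/
noncomputable def phiB : A 6 →ₐ[ℂ] MvPolynomial (Fin 4) ℂ :=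
  aeval (Sum.elim ![0, X 0, X 1] ![X 2, 0, 0, 0, X 3 * X 0, X 3 * X 1])

/-- The parametrisation of the section `u = 0`; variables `x₀, x₁, x₂, l` of the target. -/
noncomputable def phiD : A 6 →ₐ[ℂ] MvPolynomial (Fin 4) ℂ :=
  aeval (Sum.elim ![X 0, X 1, X 2] ![0, 0, 0, X 3 * X 0, X 3 * X 1, X 3 * X 2])

/-- JOB SFA. Dimension of the image of `A_(a,b)` under `phiA`: `(b+2 choose 2)`, and the class.
Proof: the image of `A_(a,b)` is spanned by the monomials `x₀^a u₁^i u₂^j v₀^k`, `i + j + k = b`. The kernel is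
treated by `S_GRK` with weights `(1,0), (1,1), (1,1), (1,1)`; then `hf = (b+2 choose 2)`, and
`(nb+2)(nb+1)/(2n²) → b²/2`. The equations hold in the kernel since they are mapped to `0`. -/
def S_SFA : Prop := (RingHom.ker phiA).IsPrime ∧ BiHom (RingHom.ker phiA) ∧ Eqns (RingHom.ker phiA) ∧
  HasClass (RingHom.ker phiA) 2 ![1, 0, 0]

/-- JOB SFB. The same for `phiB`: the image of `A_(a,b)` is spanned by the monomials
`x₁^i x₂^j u₀^(b-k) l^k` with `0 ≤ k ≤ b`, `i + j = a + k`: all of them occur, as a monomial of degree `a + k` in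
`x₁, x₂` is a product of a monomial of degree `a` and of one of degree `k`. So
`hf = ∑_{k=0}^b (a + k + 1) = (b+1)(a+1) + b(b+1)/2`, and the limit is `a b + b²/2`. Weights
for `S_GRK`: `x₁, x₂ : (1,0)`, `u₀ : (1,1)`, `l : (0,1)`. -/
def S_SFB : Prop := (RingHom.ker phiB).IsPrime ∧ BiHom (RingHom.ker phiB) ∧ Eqns (RingHom.ker phiB) ∧
  HasClass (RingHom.ker phiB) 2 ![1, 1, 0]

/-- JOB SFD. The same for `phiD`: the image of `A_(a,b)` is spanned by the monomials
`x^m l^b` with `|m| = a + b`; `hf = (a+b+2 choose 2)`, with limit `(a + b)²/2`. Weights for `S_GRK`: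
`x_i : (1,0)`, `l : (0,1)`. -/
def S_SFD : Prop := (RingHom.ker phiD).IsPrime ∧ BiHom (RingHom.ker phiD) ∧ Eqns (RingHom.ker phiD) ∧
  HasClass (RingHom.ker phiD) 2 ![1, 1, 1]

/-! ## Part 4: the cone -/

/-- JOB CNE. Let `S ⊆ ℝ³` contain `(1,0,0), (1,1,0), (0,2,1), (1,1,1)` (coordinates `s₀, s₁, s₂`) and let all `s ∈ S`
satisfy `s₂ ≥ 0`, `s₁ ≥ s₂`, `s₀ + s₁ ≥ 2 s₂`, `s₀ + 2 s₂ ≥ s₁`. Then the closed convex cone generated by `S` is
not simplicial.
Proof: the closed cone `C` satisfies the same four inequalities. Suppose it is generated by a linearly independent family `v`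
(at most three vectors). Every `v i` is in `C`. The point `(1,0,0)` is a nonnegative combination of the `v i`; as the
linear forms `s₂` and `s₁ - s₂` are `≥ 0` on `C` and vanish at the point, they vanish at all
the `v i` which occur, so these are multiples of `(1,0,0)`. So some `v i` is a (nonzero) multiple of
`(1,0,0)`. In the same way, for `(1,1,0)` use `s₂` and `s₀ + 2s₂ - s₁`, for `(0,2,1)` use
`s₀ + s₁ - 2s₂` and `s₀ + 2s₂ - s₁`, for `(1,1,1)` use `s₁ - s₂` and `s₀ + s₁ - 2s₂`. So there are four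
different indices, but the family has at most three members. -/
def S_CNE : Prop := ∀ S : Set (Fin 3 → ℝ), ![1, 0, 0] ∈ S → ![1, 1, 0] ∈ S → ![0, 2, 1] ∈ S →
  ![1, 1, 1] ∈ S →
  (∀ s ∈ S, 0 ≤ s 2 ∧ s 2 ≤ s 1 ∧ 2 * s 2 ≤ s 0 + s 1 ∧ s 1 ≤ s 0 + 2 * s 2) →
  ¬ IsSimplicial (closure (PointedCone.hull ℝ S : Set (Fin 3 → ℝ)))

end Q36.PB
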