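import Mathlib
import Pool.Agent.Q36.PB.Def
import Pool.Agent.Q36.PB.Stm

/-!
# Finiteness and Hilbert functions of polynomial rings
-/

set_option autoImplicit false

open MvPolynomial Filter Topology

namespace Q36.PB

/-- The weight of a monomial. -/
theorem weight_eq (N : ℕ) (m : Fin 3 ⊕ Fin N →₀ ℕ) :
    Finsupp.weight (wt N) m = (∑ i, m (Sum.inl i), ∑ j, m (Sum.inr j)) := by
  rw [Finsupp.weight_apply, Finsupp.sum_fintype _ _ (fun _ => by simp), Fintype.sum_sum_type]
  simp only [wt, Sum.elim_inl, Sum.elim_inr]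
  ext
  · simp [Prod.fst_sum]
  · simp [Prod.snd_sum]

/-- The exponents of bidegree `(a, b)`. -/
def Ex (N a b : ℕ) : Set (Fin 3 ⊕ Fin N →₀ ℕ) :=
  {m | ∑ i, m (Sum.inl i) = a ∧ ∑ j, m (Sum.inr j) = b}

theorem ex_finite (N a b : ℕ) : (Ex N a b).Finite := by
  refine Set.Finite.subset (Finset.finite_toSet
    (Finset.Iic (Finsupp.equivFunOnFinite.symm fun _ : Fin 3 ⊕ Fin N => a + b))) ?_
  rintro m ⟨h1, h2⟩
  rw [Finset.coe_Iic, Set.mem_Iic]
  intro i
  show m i ≤ a + b
  rcases i with i | j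
  · have : m (Sum.inl i) ≤ ∑ i, m (Sum.inl i) :=
      Finset.single_le_sum (f := fun i => m (Sum.inl i)) (fun _ _ => Nat.zero_le _) (Finset.mem_univ i)
    omega
  · have : m (Sum.inr j) ≤ ∑ i, m (Sum.inr i) :=
      Finset.single_le_sum (f := fun i => m (Sum.inr i)) (fun _ _ => Nat.zero_le _) (Finset.mem_univ j)
    omega

theorem bi_eq (N a b : ℕ) : bi N a b = restrictSupport ℂ (Ex N a b) := by
  rw [bi, weightedHomogeneousSubmodule_eq_finsupp_supported]
  have : {d | Finsupp.weight (wt N) d = (a, b)} = Ex N a b := by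
    ext m
    simp only [Set.mem_ofPred_eq, weight_eq, Ex, Prod.mk.injEq]
  rw [this]
  rfl

theorem bi_finite (N a b : ℕ) : Module.Finite ℂ (bi N a b) := by
  rw [bi_eq]
  have := (ex_finite N a b).to_subtype
  exact Module.Finite.of_basis (basisRestrictSupport ℂ (Ex N a b))

theorem finrank_bi (N a b : ℕ) : Module.finrank ℂ (bi N a b) = (Ex N a b).ncard := by
  rw [bi_eq]
  have := (ex_finite N a b).to_subtype
  have := Fintype.ofFinite (Ex N a b)
  rw [Module.finrank_eq_card_basis (basisRestrictSupport ℂ (Ex N a b)),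
    Set.ncard_eq_toFinset_card', Set.toFinset_card]

/-- The number of exponents. -/
theorem card_ex (N a b : ℕ) (hN : 1 ≤ N) :
    (Ex N a b).ncard = (a + 2).choose 2 * (b + N - 1).choose (N - 1) := by
  classical
  let T : Finset ((Fin 3 →₀ ℕ) × (Fin N →₀ ℕ)) :=
    (Finset.univ.finsuppAntidiag a) ×ˢ (Finset.univ.finsuppAntidiag b)
  have h1 : Ex N a b = Finsupp.sumFinsuppEquivProdFinsupp.symm '' (T : Set _) := by
    ext m
    rw [Equiv.image_eq_preimage_symm]
    simp only [Equiv.symm_symm, Set.mem_preimage, T, Finset.coe_product, Set.mem_prod,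
      Finset.mem_coe, Finset.mem_finsuppAntidiag, Finset.subset_univ, and_true, Ex,
      Set.mem_ofPred_eq]
    rfl
  rw [h1, Set.ncard_image_of_injective _ (Equiv.injective _), Set.ncard_coe_finset,
    Finset.card_product, Finset.card_finsuppAntidiag_nat_eq_choose,
    Finset.card_finsuppAntidiag_nat_eq_choose, Finset.card_univ, Finset.card_univ, Fintype.card_fin,
    Fintype.card_fin]
  congr 1
  · have : 3 + a - 1 = a + 2 := by omega
    rw [this, ← Nat.choose_symm_add]
  · have : N + b - 1 = b + N - 1 := by omega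
    rw [this]
    have h2 : b + N - 1 = b + (N - 1) := by omega
    rw [h2]
    exact Nat.choose_symm_add

attribute [local instance] MvPolynomial.weightedGradedAlgebra

theorem decompose_eq {N : ℕ} (r : A N) (i : ℕ × ℕ) :
    (DirectSum.decompose (weightedHomogeneousSubmodule ℂ (wt N)) r i : A N) =
      weightedHomogeneousComponent (wt N) i r :=
  weightedDecomposition.decompose'_apply ℂ (wt N) r i

theorem biHom_iff {N : ℕ} (P : Ideal (A N)) :
    BiHom P ↔ P.IsHomogeneous (weightedHomogeneousSubmodule ℂ (wt N)) := by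
  constructor
  · intro h i r hr
    rw [decompose_eq]
    exact h r hr i
  · intro h p hp d
    rw [← decompose_eq]
    exact h d hp

theorem biHom_span {N : ℕ} (S : Set (A N)) (h : ∀ g ∈ S, ∃ c d, g ∈ bi N c d) :
    BiHom (Ideal.span S) := by
  rw [biHom_iff]
  refine Ideal.homogeneous_span _ _ fun g hg => ?_
  obtain ⟨c, d, h1⟩ := h g hg
  exact ⟨(c, d), h1⟩

theorem hf_mono {N : ℕ} (I J : Ideal (A N)) (a b : ℕ) (h : I ≤ J) : hf J a b ≤ hf I a b := by
  have hfin := bi_finite N a b
  have : (bi N a b).map (Ideal.Quotient.mkₐ ℂ J).toLinearMap =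
      ((bi N a b).map (Ideal.Quotient.mkₐ ℂ I).toLinearMap).map
        (Ideal.Quotient.factorₐ ℂ h).toLinearMap := by
    rw [← Submodule.map_comp]
    rfl
  rw [hf, hf, this]
  exact Submodule.finrank_map_le _ _

theorem hf_bot (N a b : ℕ) : hf (⊥ : Ideal (A N)) a b = (Ex N a b).ncard := by
  rw [← finrank_bi, hf]
  have hinj : Function.Injective (Ideal.Quotient.mkₐ ℂ (⊥ : Ideal (A N))).toLinearMap := by
    intro x y hxy
    have h1 : Ideal.Quotient.mk (⊥ : Ideal (A N)) x = Ideal.Quotient.mk ⊥ y := hxy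
    rw [Ideal.Quotient.eq, Ideal.mem_bot] at h1
    exact sub_eq_zero.1 h1
  exact (Submodule.equivMapOfInjective _ hinj _).finrank_eq.symm

theorem fin : S_FIN := by
  refine ⟨bi_finite, fun a b => ?_, fun N S h => biHom_span S h, fun N I J a b h => hf_mono I J a b h⟩
  rw [hf_bot, card_ex 3 a b (by norm_num)]
  rfl

end Q36.PB
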