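import Mathlib
import Pool.Agent.Q36.PB.Fin

/-!
# The exact sequence for a nonzerodivisor
-/

set_option autoImplicit false

open MvPolynomial Filter Topology

namespace Q36.PB

attribute [local instance] MvPolynomial.weightedGradedAlgebra

theorem mul_mem_bi {N a b c d : ℕ} {f g : A N} (hf : f ∈ bi N a b) (hg : g ∈ bi N c d) :
    f * g ∈ bi N (a + c) (b + d) :=
  IsWeightedHomogeneous.mul hf hg

/-- The component of a product with a bihomogeneous factor. -/
theorem comp_mul {N a b c d : ℕ} {f : A N} (hf : f ∈ bi N c d) (h : A N) :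
    weightedHomogeneousComponent (wt N) (a + c, b + d) (f * h) =
      f * weightedHomogeneousComponent (wt N) (a, b) h := by
  have h1 := DirectSum.coe_decompose_mul_add_of_left_mem (weightedHomogeneousSubmodule ℂ (wt N))
    (i := (c, d)) (j := (a, b)) (a := f) (b := h) hf
  rw [decompose_eq, decompose_eq] at h1
  rw [← h1, Prod.mk_add_mk, add_comm c a, add_comm d b]

theorem comp_self {N a b : ℕ} {f : A N} (hf : f ∈ bi N a b) :
    weightedHomogeneousComponent (wt N) (a, b) f = f :=
  IsWeightedHomogeneous.weightedHomogeneousComponent_same hf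

theorem drp (_h : S_FIN) : S_DRP := by
  intro N I c d f hI hf' hnz a b
  have fin1 := bi_finite N (a + c) (b + d)
  let π := (Ideal.Quotient.mkₐ ℂ I).toLinearMap
  let π' := (Ideal.Quotient.mkₐ ℂ (I ⊔ Ideal.span {f})).toLinearMap
  let φ := (Ideal.Quotient.factorₐ ℂ (le_sup_left : I ≤ I ⊔ Ideal.span {f})).toLinearMap
  let W := (bi N (a + c) (b + d)).map π
  let μ : (A N ⧸ I) →ₗ[ℂ] (A N ⧸ I) := LinearMap.mulLeft ℂ (Ideal.Quotient.mk I f)
  have e0 : (bi N (a + c) (b + d)).map π' = W.map φ := by
    show _ = ((bi N (a + c) (b + d)).map π).map φ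
    rw [← Submodule.map_comp]
    rfl
  have e1 := LinearMap.finrank_range_add_finrank_ker (φ.domRestrict W)
  have e2 : LinearMap.range (φ.domRestrict W) = W.map φ := LinearMap.range_domRestrict W φ
  have e3 : Module.finrank ℂ (LinearMap.ker (φ.domRestrict W)) =
      Module.finrank ℂ (W ⊓ LinearMap.ker φ : Submodule ℂ (A N ⧸ I)) := by
    rw [LinearMap.ker_domRestrict, ← Submodule.map_comap_subtype]
    exact (Submodule.finrank_map_subtype_eq W _).symm
  have e4 : W ⊓ LinearMap.ker φ = ((bi N a b).map π).map μ := by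
    apply le_antisymm
    · rintro w ⟨⟨v, hv, rfl⟩, hw⟩
      have h1 : v ∈ I ⊔ Ideal.span {f} := by
        rw [← Ideal.Quotient.eq_zero_iff_mem]
        exact hw
      obtain ⟨i, hi, z, hz, hvz⟩ := Submodule.mem_sup.1 h1
      obtain ⟨h, rfl⟩ := Ideal.mem_span_singleton'.1 hz
      have h2 : v = weightedHomogeneousComponent (wt N) (a + c, b + d) i +
          f * weightedHomogeneousComponent (wt N) (a, b) h := by
        rw [← comp_mul hf' h, ← map_add, mul_comm f h, hvz]
        exact (comp_self hv).symm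
      refine ⟨π (weightedHomogeneousComponent (wt N) (a, b) h),
        ⟨_, weightedHomogeneousComponent_mem _ _ _, rfl⟩, ?_⟩
      show Ideal.Quotient.mk I f * Ideal.Quotient.mk I _ = Ideal.Quotient.mk I v
      rw [← map_mul, Ideal.Quotient.eq]
      have h3 : f * weightedHomogeneousComponent (wt N) (a, b) h - v =
          -weightedHomogeneousComponent (wt N) (a + c, b + d) i := by
        rw [h2]
        ring
      rw [h3]
      exact neg_mem (hI i hi _)
    · rintro _ ⟨_, ⟨u, hu, rfl⟩, rfl⟩
      refine ⟨⟨f * u, ?_, ?_⟩, ?_⟩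
      · have := mul_mem_bi hf' hu
        rwa [add_comm c a, add_comm d b] at this
      · exact map_mul (Ideal.Quotient.mk I) f u
      · show Ideal.Quotient.factor (le_sup_left : I ≤ I ⊔ Ideal.span {f})
          (Ideal.Quotient.mk I f * Ideal.Quotient.mk I u) = 0
        rw [← map_mul, Ideal.Quotient.factor_mk, Ideal.Quotient.eq_zero_iff_mem]
        exact Ideal.mul_mem_right _ _ (Ideal.mem_sup_right (Ideal.mem_span_singleton_self f))
  have e5 : Module.finrank ℂ (((bi N a b).map π).map μ) = Module.finrank ℂ ((bi N a b).map π) := by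
    have h1 : LinearMap.range (μ.domRestrict ((bi N a b).map π)) = ((bi N a b).map π).map μ :=
      LinearMap.range_domRestrict _ μ
    rw [← h1]
    apply LinearMap.finrank_range_of_inj
    rw [← LinearMap.ker_eq_bot, LinearMap.ker_eq_bot']
    rintro ⟨_, ⟨u, hu, rfl⟩⟩ h2
    have h3 : Ideal.Quotient.mk I f * Ideal.Quotient.mk I u = 0 := h2
    rw [← map_mul, Ideal.Quotient.eq_zero_iff_mem] at h3
    apply Subtype.ext
    exact Ideal.Quotient.eq_zero_iff_mem.2 (hnz a b u hu h3)
  show Module.finrank ℂ ((bi N (a + c) (b + d)).map π') + Module.finrank ℂ ((bi N a b).map π) =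
    Module.finrank ℂ W
  rw [e0, ← e2, ← e1, e3, e4, e5]

end Q36.PB
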