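import Mathlib
import Pool.Agent.Q36.PB.Def
import Pool.Agent.Q36.PB.Stm

/-!
# Assembly of project PB
-/

set_option autoImplicit false

open MvPolynomial Filter Topology

namespace Q36.PB

/-- The bundle `f^*(T(-1)) ⊕ O(1)`, `f = [x₀² : x₁² : x₂²]`. -/
noncomputable def B0 (h : S_RNK) : Bundle 3 where
  N := 6
  m := 4
  deg := ![2, 1, 1, 1]
  M := M0
  hom := h.1
  rank := h.2

/-- The equations. -/
noncomputable def eqn0 (i : Fin 4) : A 6 := ∑ j : Fin 6, rename Sum.inl (M0 i j) * X (Sum.inr j)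

theorem e0 : eqn0 0 = (X (Sum.inl 0) ^ 2 * X (Sum.inr 0) +
      X (Sum.inl 1) ^ 2 * X (Sum.inr 1) + X (Sum.inl 2) ^ 2 * X (Sum.inr 2) : A 6) := by
  simp only [eqn0, M0, Fin.sum_univ_six]
  simp

theorem e1 : eqn0 1 = (X (Sum.inl 2) * X (Sum.inr 4) -
      X (Sum.inl 1) * X (Sum.inr 5) : A 6) := by
  simp only [eqn0, M0, Fin.sum_univ_six]
  simp
  ring

theorem e2 : eqn0 2 = (X (Sum.inl 0) * X (Sum.inr 5) -
      X (Sum.inl 2) * X (Sum.inr 3) : A 6) := by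
  simp only [eqn0, M0, Fin.sum_univ_six]
  simp
  ring

theorem e3 : eqn0 3 = (X (Sum.inl 1) * X (Sum.inr 3) -
      X (Sum.inl 0) * X (Sum.inr 4) : A 6) := by
  simp only [eqn0, M0, Fin.sum_univ_six]
  simp
  ring

theorem eqns_iff (h : S_RNK) (P : Ideal (A 6)) :
    (∀ i, (B0 h).eqn i ∈ P) ↔ Eqns P := by
  show (∀ i : Fin 4, eqn0 i ∈ P) ↔ Eqns P
  simp only [Fin.forall_fin_succ, Fin.isValue, Fin.succ_zero_eq_one, Fin.succ_one_eq_two,
    IsEmpty.forall_iff, and_true, Eqns]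
  rw [e0, e1, e2]
  have : (Fin.succ 2 : Fin 4) = 3 := rfl
  rw [this, e3]

theorem pr_q : pr (X (Sum.inl 0) ^ 2 * X (Sum.inr 0) +
      X (Sum.inl 1) ^ 2 * X (Sum.inr 1) + X (Sum.inl 2) ^ 2 * X (Sum.inr 2) : A 6) = q := by
  simp [pr, q, Fin.sum_univ_three]

theorem class_comap (hT : S_TRH) (P : Ideal (A 3)) (m : ℕ) (s : Fin 3 → ℝ) :
    HasClass (P.comap pr.toRingHom) m s ↔ HasClass P m s := by
  unfold HasClass
  simp only [hT.1]

/-- The classes of the surfaces in the projective bundle. -/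
def Classes (hR : S_RNK) : Set (Fin 3 → ℝ) :=
  {s | ∃ P : Ideal (A 6), IsSub (B0 hR) P ∧ HasClass P 2 s}

theorem facts (hR : S_RNK) (hL : S_LAM) (hI : S_INQ) (hT : S_TRH) (hRel : S_REL) (hQ : S_QPR)
    (hF : S_FIN) (hA : S_SFA) (hB : S_SFB) (hD : S_SFD) :
    ![1, 0, 0] ∈ Classes hR ∧ ![1, 1, 0] ∈ Classes hR ∧ ![0, 2, 1] ∈ Classes hR ∧
      ![1, 1, 1] ∈ Classes hR ∧
      ∀ s ∈ Classes hR, 0 ≤ s 2 ∧ s 2 ≤ s 1 ∧ 2 * s 2 ≤ s 0 + s 1 ∧ s 1 ≤ s 0 + 2 * s 2 := by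
  refine ⟨?_, ?_, ?_, ?_, ?_⟩
  · refine ⟨RingHom.ker phiA, ⟨hA.1, hA.2.1, ⟨0, ?_⟩, ⟨(1 : Fin 6), ?_⟩, (eqns_iff hR _).2 hA.2.2.1⟩,
      hA.2.2.2⟩
    · show phiA (X (Sum.inl (0 : Fin 3))) ≠ 0
      rw [phiA, aeval_X]
      simp
    · show phiA (X (Sum.inr (1 : Fin 6))) ≠ 0
      rw [phiA, aeval_X]
      simp
  · refine ⟨RingHom.ker phiB, ⟨hB.1, hB.2.1, ⟨1, ?_⟩, ⟨(0 : Fin 6), ?_⟩, (eqns_iff hR _).2 hB.2.2.1⟩,
      hB.2.2.2⟩
    · show phiB (X (Sum.inl (1 : Fin 3))) ≠ 0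
      rw [phiB, aeval_X]
      simp
    · show phiB (X (Sum.inr (0 : Fin 6))) ≠ 0
      rw [phiB, aeval_X]
      simp
  · have hbi : BiHom (Ideal.span {q, X (Sum.inr 0)} : Ideal (A 3)) := by
      apply hF.2.2.1
      intro g hg
      rcases hg with rfl | hg
      · refine ⟨2, 1, ?_⟩
        unfold q
        refine Submodule.sum_mem _ fun i _ => ?_
        show IsWeightedHomogeneous _ _ _
        have h1 := (isWeightedHomogeneous_X ℂ (wt 3) (Sum.inl i : Fin 3 ⊕ Fin 3)).pow 2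
        have h2 := h1.mul (isWeightedHomogeneous_X ℂ (wt 3) (Sum.inr i : Fin 3 ⊕ Fin 3))
        exact h2
      · rw [Set.mem_singleton_iff] at hg
        subst hg
        exact ⟨0, 1, isWeightedHomogeneous_X ℂ (wt 3) (Sum.inr 0 : Fin 3 ⊕ Fin 3)⟩
    have hpr := hQ.2.2.1
    refine ⟨Ideal.comap pr.toRingHom (Ideal.span {q, X (Sum.inr 0)}), ⟨hpr.comap _,
      (hT.2.1 _).2 hbi, ⟨0, ?_⟩, ⟨(1 : Fin 6), ?_⟩, (eqns_iff hR _).2 ⟨?_, ?_, ?_, ?_⟩⟩,
      (class_comap hT _ _ _).2 hRel.2⟩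
    · intro h
      apply hQ.2.2.2.2.1
      have : pr (X (Sum.inl 0)) = X (Sum.inl 0) := by simp [pr]
      rw [← this]
      exact h
    · intro h
      apply hQ.2.2.2.2.2
      have : pr (X (Sum.inr 1)) = X (Sum.inr 1) := by simp [pr]
      rw [← this]
      exact h
    · refine Ideal.mem_comap.2 ?_
      have h2 : pr.toRingHom (X (Sum.inl 0) ^ 2 * X (Sum.inr 0) +
          X (Sum.inl 1) ^ 2 * X (Sum.inr 1) + X (Sum.inl 2) ^ 2 * X (Sum.inr 2) : A 6) = q := pr_q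
      rw [h2]
      exact Ideal.subset_span (by simp)
    · refine Ideal.mem_comap.2 ?_
      have h2 : pr.toRingHom (X (Sum.inl 2) * X (Sum.inr 4) -
          X (Sum.inl 1) * X (Sum.inr 5) : A 6) = 0 := by
        show pr _ = 0
        simp [pr]
      rw [h2]
      exact Ideal.zero_mem _
    · refine Ideal.mem_comap.2 ?_
      have h2 : pr.toRingHom (X (Sum.inl 0) * X (Sum.inr 5) -
          X (Sum.inl 2) * X (Sum.inr 3) : A 6) = 0 := by
        show pr _ = 0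
        simp [pr]
      rw [h2]
      exact Ideal.zero_mem _
    · refine Ideal.mem_comap.2 ?_
      have h2 : pr.toRingHom (X (Sum.inl 1) * X (Sum.inr 3) -
          X (Sum.inl 0) * X (Sum.inr 4) : A 6) = 0 := by
        show pr _ = 0
        simp [pr]
      rw [h2]
      exact Ideal.zero_mem _
  · refine ⟨RingHom.ker phiD, ⟨hD.1, hD.2.1, ⟨1, ?_⟩, ⟨(3 : Fin 6), ?_⟩, (eqns_iff hR _).2 hD.2.2.1⟩,
      hD.2.2.2⟩
    · show phiD (X (Sum.inl (1 : Fin 3))) ≠ 0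
      rw [phiD, aeval_X]
      simp
    · show phiD (X (Sum.inr (3 : Fin 6))) ≠ 0
      rw [phiD, aeval_X]
      simp
  · rintro s ⟨P, hP, hs⟩
    have hEq : Eqns P := (eqns_iff hR P).1 hP.eqn_mem
    obtain ⟨i0, i2, i3⟩ := hI 6 P s hs
    by_cases hv : (X (Sum.inr 3) : A 6) ∉ P ∨ (X (Sum.inr 4) : A 6) ∉ P ∨ (X (Sum.inr 5) : A 6) ∉ P
    · obtain ⟨h1, h2⟩ := i3 (hL P hP.prime hEq hP.x_notMem hv)
      exact ⟨i2, h1, by linarith, by linarith⟩
    · push Not at hv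
      obtain ⟨P', hP'⟩ := hT.2.2 P hv.1 hv.2.1 hv.2.2
      subst hP'
      have hprime : P'.IsPrime := by
        have := hP.prime
        have hsurj : Function.Surjective pr.toRingHom := by
          intro y
          refine ⟨aeval (Sum.elim (fun i => (X (Sum.inl i) : A 6))
            (fun i => X (Sum.inr (Fin.castAdd 3 i)))) y, ?_⟩
          show pr (aeval _ y) = y
          rw [← AlgHom.comp_apply]
          have : (pr.comp (aeval (Sum.elim (fun i => (X (Sum.inl i) : A 6))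
            (fun i => X (Sum.inr (Fin.castAdd 3 i)))))) = AlgHom.id ℂ (A 3) := by
            apply MvPolynomial.algHom_ext
            rintro (i | i)
            · simp [pr]
            · fin_cases i <;> simp [pr]
          rw [this]
          rfl
        refine ⟨?_, ?_⟩
        · rintro rfl
          exact this.ne_top Ideal.comap_top
        · intro y z hyz
          obtain ⟨y', rfl⟩ := hsurj y
          obtain ⟨z', rfl⟩ := hsurj z
          exact this.mem_or_mem (x := y') (y := z')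
            (Ideal.mem_comap.2 (by rw [map_mul]; exact hyz))
      have hqq : q ∈ P' := by
        have := hEq.1
        rw [Ideal.mem_comap] at this
        have h2 : pr.toRingHom (X (Sum.inl 0) ^ 2 * X (Sum.inr 0) +
          X (Sum.inl 1) ^ 2 * X (Sum.inr 1) + X (Sum.inl 2) ^ 2 * X (Sum.inr 2) : A 6) = q := pr_q
        rwa [h2] at this
      obtain ⟨h1, h2, h3⟩ := hRel.1 P' s hprime ((hT.2.1 _).1 hP.hom) hqq
        ((class_comap hT _ _ _).1 hs)
      exact ⟨h3, by linarith, by linarith, by linarith⟩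

theorem main (hR : S_RNK) (hL : S_LAM) (hI : S_INQ) (hT : S_TRH) (hRel : S_REL) (hQ : S_QPR)
    (hF : S_FIN) (hA : S_SFA) (hB : S_SFB) (hD : S_SFD) (hC : S_CNE) :
    ∃ B : Bundle 3, ¬ IsSimplicial (eff B 2) := by
  refine ⟨B0 hR, ?_⟩
  obtain ⟨h1, h2, h3, h4, h5⟩ := facts hR hL hI hT hRel hQ hF hA hB hD
  exact hC (Classes hR) h1 h2 h3 h4 h5

end Q36.PB
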