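import Mathlib
import Pool.Agent.Q36.PB.Stm

/-!
# A cone with four extremal rays is not simplicial
-/

set_option autoImplicit false

open MvPolynomial Filter Topology

namespace Q36.PB

/-- The cone cut out by the four inequalities. -/
def coneD : Set (Fin 3 → ℝ) := {s | 0 ≤ s 2 ∧ s 2 ≤ s 1 ∧ 2 * s 2 ≤ s 0 + s 1 ∧ s 1 ≤ s 0 + 2 * s 2}

theorem coneD_closed : IsClosed coneD := by
  have h : coneD = {s : Fin 3 → ℝ | 0 ≤ s 2} ∩ ({s | s 2 ≤ s 1} ∩ ({s | 2 * s 2 ≤ s 0 + s 1} ∩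
      {s | s 1 ≤ s 0 + 2 * s 2})) := rfl
  rw [h]
  have c0 : Continuous fun s : Fin 3 → ℝ => s 0 := continuous_apply 0
  have c1 : Continuous fun s : Fin 3 → ℝ => s 1 := continuous_apply 1
  have c2 : Continuous fun s : Fin 3 → ℝ => s 2 := continuous_apply 2
  exact (isClosed_le continuous_const c2).inter ((isClosed_le c2 c1).inter
    ((isClosed_le (continuous_const.mul c2) (c0.add c1)).inter
      (isClosed_le c1 (c0.add (continuous_const.mul c2)))))

theorem hull_sub (S : Set (Fin 3 → ℝ)) (h : ∀ s ∈ S, s ∈ coneD) (s : Fin 3 → ℝ)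
    (hs : s ∈ PointedCone.hull ℝ S) : s ∈ coneD := by
  induction hs using Submodule.span_induction with
  | mem x hx => exact h x hx
  | zero => simp [coneD]
  | add x y _ _ hx hy =>
    obtain ⟨a1, a2, a3, a4⟩ := hx
    obtain ⟨b1, b2, b3, b4⟩ := hy
    refine ⟨?_, ?_, ?_, ?_⟩ <;> simp only [Pi.add_apply] <;> linarith
  | smul c x _ hx =>
    obtain ⟨a1, a2, a3, a4⟩ := hx
    obtain ⟨c, hc⟩ := c
    have e : ∀ i, ((⟨c, hc⟩ : {x : ℝ // 0 ≤ x}) • x) i = c * x i := fun i => rfl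
    refine ⟨?_, ?_, ?_, ?_⟩ <;> simp only [e] <;> nlinarith

theorem extremal {ι : Type} (v : ι → Fin 3 → ℝ) (hv : LinearIndependent ℝ v)
    (φ ψ : (Fin 3 → ℝ) →ₗ[ℝ] ℝ) (p : Fin 3 → ℝ) (hp : p ≠ 0)
    (hφ : ∀ i, 0 ≤ φ (v i)) (hψ : ∀ i, 0 ≤ ψ (v i)) (h1 : φ p = 0) (h2 : ψ p = 0)
    (h3 : ∀ s, φ s = 0 → ψ s = 0 → ∃ t : ℝ, s = t • p)
    (hmem : p ∈ PointedCone.hull ℝ (Set.range v)) : ∃ i, ∃ t : ℝ, t ≠ 0 ∧ v i = t • p := by
  obtain ⟨c, hc⟩ := (Finsupp.mem_span_range_iff_exists_finsupp).1 hmem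
  have hne : ∃ i ∈ c.support, c i ≠ 0 := by
    by_contra hcon
    push Not at hcon
    apply hp
    rw [← hc, Finsupp.sum]
    exact Finset.sum_eq_zero fun i hi => by rw [hcon i hi, zero_smul]
  obtain ⟨i, hi, hci⟩ := hne
  have hz : ∀ χ : (Fin 3 → ℝ) →ₗ[ℝ] ℝ, (∀ i, 0 ≤ χ (v i)) → χ p = 0 → χ (v i) = 0 := by
    intro χ hχ h
    rw [← hc, Finsupp.sum, map_sum] at h
    have e : ∀ j, χ (c j • v j) = (c j : ℝ) * χ (v j) := fun j => by
      have : c j • v j = (c j : ℝ) • v j := rfl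
      rw [this, map_smul, smul_eq_mul]
    simp only [e] at h
    have h' := (Finset.sum_eq_zero_iff_of_nonneg fun j _ => mul_nonneg (c j).2 (hχ j)).1 h i hi
    rcases mul_eq_zero.1 h' with h'' | h''
    · exact absurd (Subtype.ext h'') hci
    · exact h''
  obtain ⟨t, ht⟩ := h3 (v i) (hz φ hφ h1) (hz ψ hψ h2)
  refine ⟨i, t, ?_, ht⟩
  rintro rfl
  rw [zero_smul] at ht
  exact hv.ne_zero i ht

theorem cne : S_CNE := by
  intro S m1 m2 m3 m4 hS ⟨ι, v, hv, hC⟩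
  have hD : ∀ s ∈ closure (PointedCone.hull ℝ S : Set (Fin 3 → ℝ)), s ∈ coneD :=
    fun s hs => closure_minimal (fun s hs => hull_sub S hS s hs) coneD_closed hs
  have hvD : ∀ i, v i ∈ coneD := fun i => hD _ (by
    rw [hC]
    exact Submodule.subset_span ⟨i, rfl⟩)
  have hmem : ∀ p ∈ S, p ∈ PointedCone.hull ℝ (Set.range v) := by
    intro p hp
    have : p ∈ closure (PointedCone.hull ℝ S : Set (Fin 3 → ℝ)) :=
      subset_closure (Submodule.subset_span hp)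
    rw [hC] at this
    exact this
  let x0 : (Fin 3 → ℝ) →ₗ[ℝ] ℝ := LinearMap.proj 0
  let x1 : (Fin 3 → ℝ) →ₗ[ℝ] ℝ := LinearMap.proj 1
  let x2 : (Fin 3 → ℝ) →ₗ[ℝ] ℝ := LinearMap.proj 2
  let f1 : (Fin 3 → ℝ) →ₗ[ℝ] ℝ := x2
  let f2 : (Fin 3 → ℝ) →ₗ[ℝ] ℝ := x1 - x2
  let f3 : (Fin 3 → ℝ) →ₗ[ℝ] ℝ := x0 + x1 - (2 : ℝ) • x2
  let f4 : (Fin 3 → ℝ) →ₗ[ℝ] ℝ := x0 + (2 : ℝ) • x2 - x1
  have g1 : ∀ s, f1 s = s 2 := fun s => rfl
  have g2 : ∀ s, f2 s = s 1 - s 2 := fun s => rfl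
  have g3 : ∀ s, f3 s = s 0 + s 1 - 2 * s 2 := fun s => rfl
  have g4 : ∀ s, f4 s = s 0 + 2 * s 2 - s 1 := fun s => rfl
  have n1 : ∀ i, 0 ≤ f1 (v i) := fun i => by rw [g1]; exact (hvD i).1
  have n2 : ∀ i, 0 ≤ f2 (v i) := fun i => by rw [g2]; linarith [(hvD i).2.1]
  have n3 : ∀ i, 0 ≤ f3 (v i) := fun i => by rw [g3]; linarith [(hvD i).2.2.1]
  have n4 : ∀ i, 0 ≤ f4 (v i) := fun i => by rw [g4]; linarith [(hvD i).2.2.2]
  obtain ⟨i1, t1, ht1, e1⟩ := extremal v hv f1 f2 ![1, 0, 0] (fun h => by simpa using congrFun h 0)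
    n1 n2 (by rw [g1]; simp) (by rw [g2]; simp) (fun s h1 h2 => ⟨s 0, by
      rw [g1] at h1
      rw [g2] at h2
      ext k
      fin_cases k <;> simp <;> linarith⟩) (hmem _ m1)
  obtain ⟨i2, t2, ht2, e2⟩ := extremal v hv f1 f4 ![1, 1, 0] (fun h => by simpa using congrFun h 0)
    n1 n4 (by rw [g1]; simp) (by rw [g4]; simp) (fun s h1 h2 => ⟨s 0, by
      rw [g1] at h1
      rw [g4] at h2
      ext k
      fin_cases k <;> simp <;> linarith⟩) (hmem _ m2)
  obtain ⟨i3, t3, ht3, e3⟩ := extremal v hv f3 f4 ![0, 2, 1] (fun h => by simpa using congrFun h 1)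
    n3 n4 (by rw [g3]; simp) (by rw [g4]; simp) (fun s h1 h2 => ⟨s 2, by
      rw [g3] at h1
      rw [g4] at h2
      ext k
      fin_cases k <;> simp <;> linarith⟩) (hmem _ m3)
  obtain ⟨i4, t4, ht4, e4⟩ := extremal v hv f2 f3 ![1, 1, 1] (fun h => by simpa using congrFun h 0)
    n2 n3 (by rw [g2]; simp) (by rw [g3]; show (1 : ℝ) + 1 - 2 * 1 = 0; norm_num)
    (fun s h1 h2 => ⟨s 0, by
      rw [g2] at h1
      rw [g3] at h2
      ext k
      fin_cases k <;> simp <;> linarith⟩) (hmem _ m4)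
  have key : Function.Injective ![i1, i2, i3, i4] := by
    have d12 : i1 ≠ i2 := by
      rintro rfl
      rw [e1] at e2
      have := congrFun e2 1
      simp at this
      exact ht2 this.symm
    have d13 : i1 ≠ i3 := by
      rintro rfl
      rw [e1] at e3
      have := congrFun e3 2
      simp at this
      exact ht3 this.symm
    have d14 : i1 ≠ i4 := by
      rintro rfl
      rw [e1] at e4
      have := congrFun e4 2
      simp at this
      exact ht4 this.symm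
    have d23 : i2 ≠ i3 := by
      rintro rfl
      rw [e2] at e3
      have := congrFun e3 2
      simp at this
      exact ht3 this.symm
    have d24 : i2 ≠ i4 := by
      rintro rfl
      rw [e2] at e4
      have := congrFun e4 2
      simp at this
      exact ht4 this.symm
    have d34 : i3 ≠ i4 := by
      rintro rfl
      rw [e3] at e4
      have := congrFun e4 0
      simp at this
      exact ht4 this.symm
    intro a b hab
    fin_cases a <;> fin_cases b <;> simp_all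
  have h4 := (hv.comp _ key).fintype_card_le_finrank
  simp at h4

end Q36.PB
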