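import Mathlib
import Pool.Agent.Q36.PB.Asm
import Pool.Agent.Q36.PB.Cne

/-!
# The cone is generated by four rays
-/

set_option autoImplicit false

open MvPolynomial Filter Topology

namespace Q36.PB

/-- The generators. -/
def gens : Set (Fin 3 → ℝ) := {![1, 0, 0], ![1, 1, 0], ![0, 2, 1], ![1, 1, 1]}

theorem coneD_sub (s : Fin 3 → ℝ) (hs : s ∈ coneD) : s ∈ PointedCone.hull ℝ gens := by
  obtain ⟨h0, h1, h2, h3⟩ := hs
  have hm : ∀ p ∈ gens, ∀ c : ℝ, 0 ≤ c → c • p ∈ PointedCone.hull ℝ gens := by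
    intro p hp c hc
    have h : p ∈ PointedCone.hull ℝ gens := Submodule.subset_span hp
    exact Submodule.smul_mem _ (⟨c, hc⟩ : {x : ℝ // 0 ≤ x}) h
  have p1 : (![1, 0, 0] : Fin 3 → ℝ) ∈ gens := by simp [gens]
  have p2 : (![1, 1, 0] : Fin 3 → ℝ) ∈ gens := by simp [gens]
  have p3 : (![0, 2, 1] : Fin 3 → ℝ) ∈ gens := by simp [gens]
  have p4 : (![1, 1, 1] : Fin 3 → ℝ) ∈ gens := by simp [gens]
  rcases le_total (2 * s 2) (s 1) with h | h
  · have e : s = (s 0 - s 1 + 2 * s 2) • ![1, 0, 0] + (s 1 - 2 * s 2) • ![1, 1, 0] +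
        (s 2) • ![0, 2, 1] := by
      ext k
      fin_cases k <;> simp <;> ring
    rw [e]
    exact add_mem (add_mem (hm _ p1 _ (by linarith)) (hm _ p2 _ (by linarith)))
      (hm _ p3 _ h0)
  · have e : s = (s 0 + s 1 - 2 * s 2) • ![1, 0, 0] + (s 1 - s 2) • ![0, 2, 1] +
        (2 * s 2 - s 1) • ![1, 1, 1] := by
      ext k
      fin_cases k <;> simp <;> ring
    rw [e]
    exact add_mem (add_mem (hm _ p1 _ (by linarith)) (hm _ p3 _ (by linarith)))
      (hm _ p4 _ (by linarith))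

theorem closure_eq (S : Set (Fin 3 → ℝ)) (m1 : ![1, 0, 0] ∈ S) (m2 : ![1, 1, 0] ∈ S)
    (m3 : ![0, 2, 1] ∈ S) (m4 : ![1, 1, 1] ∈ S)
    (hS : ∀ s ∈ S, 0 ≤ s 2 ∧ s 2 ≤ s 1 ∧ 2 * s 2 ≤ s 0 + s 1 ∧ s 1 ≤ s 0 + 2 * s 2) :
    closure (PointedCone.hull ℝ S : Set (Fin 3 → ℝ)) = (PointedCone.hull ℝ gens : Set _) := by
  apply Set.Subset.antisymm
  · intro s hs
    exact coneD_sub s (closure_minimal (fun s hs => hull_sub S hS s hs) coneD_closed hs)
  · have h : PointedCone.hull ℝ gens ≤ PointedCone.hull ℝ S := by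
      refine Submodule.span_mono ?_
      rintro p (rfl | rfl | rfl | rfl)
      · exact m1
      · exact m2
      · exact m3
      · exact m4
    exact fun s hs => subset_closure (h hs)

end Q36.PB
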