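import Mathlib
import Pool.Agent.Q36.PB.Drp

/-!
# Kernels of graded homomorphisms
-/

set_option autoImplicit false

open MvPolynomial Filter Topology

namespace Q36.PB

section General

variable {N : ℕ} {τ : Type} {w : τ → ℕ × ℕ} {φ : A N →ₐ[ℂ] MvPolynomial τ ℂ}

theorem phi_monomial (hl : ∀ i, IsWeightedHomogeneous w (φ (X (Sum.inl i))) (1, 0))
    (hr : ∀ j, IsWeightedHomogeneous w (φ (X (Sum.inr j))) (1, 1))
    (m : Fin 3 ⊕ Fin N →₀ ℕ) (c : ℂ) {a b : ℕ} (hm : m ∈ Ex N a b) :
    IsWeightedHomogeneous w (φ (monomial m c)) (a + b, b) := by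
  have h1 : (monomial m c : A N) = c • ∏ i, X i ^ m i := by
    rw [monomial_eq, smul_eq_C_mul, Finsupp.prod_fintype _ _ (fun _ => by rw [pow_zero])]
  have h2 : IsWeightedHomogeneous w (∏ i, φ (X i) ^ m i)
      (∑ i, m i • (Sum.elim (fun _ => (1, 0)) (fun _ => (1, 1)) i : ℕ × ℕ)) := by
    refine IsWeightedHomogeneous.prod _ _ _ fun i _ => ?_
    rcases i with i | j
    · exact (hl i).pow _
    · exact (hr j).pow _
  rw [h1, map_smul, map_prod]
  simp only [map_pow]
  rw [smul_eq_C_mul]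
  refine IsWeightedHomogeneous.C_mul ?_ c
  have h3 : (∑ i, m i • (Sum.elim (fun _ => (1, 0)) (fun _ => (1, 1)) i : ℕ × ℕ)) = (a + b, b) := by
    obtain ⟨ha, hb⟩ := hm
    rw [Fintype.sum_sum_type]
    simp only [Sum.elim_inl, Sum.elim_inr]
    ext
    · simp [Prod.fst_sum, ha, hb]
    · simp [Prod.snd_sum, hb]
  rw [← h3]
  exact h2

theorem phi_comp (hl : ∀ i, IsWeightedHomogeneous w (φ (X (Sum.inl i))) (1, 0))
    (hr : ∀ j, IsWeightedHomogeneous w (φ (X (Sum.inr j))) (1, 1)) (a b : ℕ) (p : A N) :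
    φ (weightedHomogeneousComponent (wt N) (a, b) p) =
      weightedHomogeneousComponent w (a + b, b) (φ p) := by
  induction p using MvPolynomial.induction_on' with
  | monomial m c =>
    have hm : m ∈ Ex N (∑ i, m (Sum.inl i)) (∑ j, m (Sum.inr j)) := ⟨rfl, rfl⟩
    have h1 := phi_monomial hl hr m c hm
    have h2 : IsWeightedHomogeneous (wt N) (monomial m c)
        (∑ i, m (Sum.inl i), ∑ j, m (Sum.inr j)) :=
      isWeightedHomogeneous_monomial _ _ _ (weight_eq N m)
    by_cases h : ((∑ i, m (Sum.inl i), ∑ j, m (Sum.inr j)) : ℕ × ℕ) = (a, b)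
    · have ha : ∑ i, m (Sum.inl i) = a := congrArg Prod.fst h
      have hb : ∑ j, m (Sum.inr j) = b := congrArg Prod.snd h
      rw [ha, hb] at h1 h2
      rw [h1.weightedHomogeneousComponent_same, h2.weightedHomogeneousComponent_same]
    · rw [h2.weightedHomogeneousComponent_ne _ (Ne.symm h), h1.weightedHomogeneousComponent_ne,
        map_zero]
      intro h'
      apply h
      have e1 := congrArg Prod.fst h'
      have e2 := congrArg Prod.snd h'
      simp only at e1 e2
      ext
      · simp only; omega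
      · simp only; omega
  | add p q hp hq => rw [map_add, map_add, map_add, map_add, hp, hq]

end General

theorem hf_ker {N : ℕ} {B : Type} [CommRing B] [Algebra ℂ B] (φ : A N →ₐ[ℂ] B) (a b : ℕ) :
    hf (RingHom.ker φ) a b = Module.finrank ℂ ((bi N a b).map φ.toLinearMap) := by
  have h1 : (bi N a b).map φ.toLinearMap =
      ((bi N a b).map (Ideal.Quotient.mkₐ ℂ (RingHom.ker φ)).toLinearMap).map
        (Ideal.kerLiftAlg φ).toLinearMap := by
    rw [← Submodule.map_comp]
    rfl
  rw [h1, hf]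
  exact (Submodule.equivMapOfInjective (Ideal.kerLiftAlg φ).toLinearMap
    (Ideal.kerLiftAlg_injective φ) _).finrank_eq

theorem grk : S_GRK := by
  intro N τ w φ hl hr
  refine ⟨RingHom.ker_isPrime φ, ?_, fun a b => hf_ker φ a b⟩
  intro p hp d
  obtain ⟨a, b⟩ := d
  rw [RingHom.mem_ker] at hp ⊢
  rw [phi_comp hl hr, hp, map_zero]

end Q36.PB
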