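import Mathlib
import Pool.Agent.Q36.PB.Stm

/-!
# Inequalities between the coordinates of a class
-/

set_option autoImplicit false

open MvPolynomial Filter Topology
open scoped Nat

namespace Q36.PB

/-- The leading form. -/
theorem form_eq (s : Fin 3 → ℝ) (a b : ℝ) :
    (∑ i : Fin 3, s i * a ^ (i : ℕ) * b ^ (2 - (i : ℕ)) / ((i : ℕ)! * (2 - (i : ℕ))! : ℝ)) =
      s 0 * b ^ 2 / 2 + s 1 * a * b + s 2 * a ^ 2 / 2 := by
  rw [Fin.sum_univ_three]
  simp

theorem quad_nonneg (A B C : ℝ) (h : ∀ n : ℕ, 0 < n → 0 ≤ A + B * n + C * (n : ℝ) ^ 2) :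
    0 ≤ C := by
  by_contra hC
  push Not at hC
  obtain ⟨n, hn⟩ := exists_nat_gt ((|A| + |B|) / (-C))
  have hn1 := h (n + 1) (Nat.succ_pos n)
  have h1 : |A| + |B| < (n : ℝ) * (-C) := by
    rwa [div_lt_iff₀ (by linarith)] at hn
  have h2 : (0 : ℝ) ≤ n := Nat.cast_nonneg n
  push_cast at hn1
  have h3 : |A| + |B| < ((n : ℝ) + 1) * (-C) := by nlinarith
  have h4 : (|A| + |B|) * ((n : ℝ) + 1) < ((n : ℝ) + 1) * (-C) * ((n : ℝ) + 1) :=
    mul_lt_mul_of_pos_right h3 (by linarith)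
  have h5 : A ≤ |A| * ((n : ℝ) + 1) := by nlinarith [le_abs_self A, abs_nonneg A]
  have h6 : B * ((n : ℝ) + 1) ≤ |B| * ((n : ℝ) + 1) :=
    mul_le_mul_of_nonneg_right (le_abs_self B) (by linarith)
  nlinarith

theorem inq : S_INQ := by
  intro N P s hs
  obtain ⟨-, hs⟩ := hs
  have hlim : ∀ a b : ℕ, 0 < a → 0 < b →
      Tendsto (fun n : ℕ => (hf P (n * a) (n * b) : ℝ) / (n : ℝ) ^ 2) atTop
        (𝓝 (s 0 * (b : ℝ) ^ 2 / 2 + s 1 * a * b + s 2 * (a : ℝ) ^ 2 / 2)) := by
    intro a b ha hb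
    have := hs a b ha hb
    rwa [form_eq] at this
  have hpos : ∀ a b : ℕ, 0 < a → 0 < b →
      0 ≤ s 0 * (b : ℝ) ^ 2 / 2 + s 1 * a * b + s 2 * (a : ℝ) ^ 2 / 2 := by
    intro a b ha hb
    exact ge_of_tendsto' (hlim a b ha hb) fun n => by positivity
  refine ⟨?_, ?_, ?_⟩
  · have := quad_nonneg (s 2 / 2) (s 1) (s 0 / 2) fun n hn => by
      have := hpos 1 n one_pos hn
      push_cast at this
      linarith
    linarith
  · have := quad_nonneg (s 0 / 2) (s 1) (s 2 / 2) fun n hn => by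
      have := hpos n 1 hn one_pos
      push_cast at this
      linarith
    linarith
  · intro h
    have h1 : ∀ n a b : ℕ, hf P (a + n) b ≤ hf P a (b + n) := by
      intro n
      induction n with
      | zero => exact fun a b => le_rfl
      | succ n ih =>
        intro a b
        have h2 := ih (a + 1) b
        have h3 := h a (b + n)
        have e1 : a + (n + 1) = a + 1 + n := by omega
        have e2 : b + (n + 1) = b + n + 1 := by omega
        rw [e1, e2]
        exact h2.trans h3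
    have h2 : ∀ a b : ℕ, 0 < a → 0 < b →
        s 0 * (b : ℝ) ^ 2 / 2 + s 1 * (a + 1 : ℝ) * b + s 2 * (a + 1 : ℝ) ^ 2 / 2 ≤
        s 0 * (b + 1 : ℝ) ^ 2 / 2 + s 1 * a * (b + 1 : ℝ) + s 2 * (a : ℝ) ^ 2 / 2 := by
      intro a b ha hb
      have t1 := hlim (a + 1) b (Nat.succ_pos a) hb
      have t2 := hlim a (b + 1) ha (Nat.succ_pos b)
      push_cast at t1 t2
      refine le_of_tendsto_of_tendsto' t1 t2 fun n => ?_
      have h3 := h1 n (n * a) (n * b)
      have e1 : n * (a + 1) = n * a + n := by ring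
      have e2 : n * (b + 1) = n * b + n := by ring
      rw [e1, e2]
      gcongr
    constructor
    · have := quad_nonneg 0 (s 0 * 3 / 2 - s 1 - s 2 / 2) (s 1 - s 2) fun n hn => by
        have h3 := h2 n 1 hn one_pos
        have hn' : (0 : ℝ) < n := Nat.cast_pos.2 hn
        push_cast at h3
        have h4 : 0 ≤ (s 0 * 3 / 2 - s 1 - s 2 / 2) + (s 1 - s 2) * n := by linarith
        have := mul_nonneg h4 hn'.le
        linarith
      linarith
    · have := quad_nonneg 0 (s 0 / 2 + s 1 - s 2 * 3 / 2) (s 0 - s 1) fun n hn => by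
        have h3 := h2 1 n one_pos hn
        have hn' : (0 : ℝ) < n := Nat.cast_pos.2 hn
        push_cast at h3
        have h4 : 0 ≤ (s 0 / 2 + s 1 - s 2 * 3 / 2) + (s 0 - s 1) * n := by linarith
        have := mul_nonneg h4 hn'.le
        linarith
      linarith

end Q36.PB
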