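import Mathlib
import Pool.Agent.Q36.PB.Drp

/-!
# The rational function `v/x`
-/

set_option autoImplicit false

open MvPolynomial Filter Topology

namespace Q36.PB

/-- The variables `v_j`. -/
noncomputable def vv (j : Fin 3) : A 6 := X (Sum.inr (Fin.natAdd 3 j))

theorem vv_zero : vv 0 = X (Sum.inr 3) := rfl
theorem vv_one : vv 1 = X (Sum.inr 4) := rfl
theorem vv_two : vv 2 = X (Sum.inr 5) := rfl

theorem eqns_all {P : Ideal (A 6)} (h : Eqns P) (i j : Fin 3) :
    (X (Sum.inl i) : A 6) * vv j - X (Sum.inl j) * vv i ∈ P := by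
  obtain ⟨-, h0, h1, h2⟩ := h
  have key : ∀ a b c d : A 6, a * b - c * d ∈ P → c * d - a * b ∈ P := fun a b c d h => by
    have := neg_mem h
    rwa [neg_sub] at this
  fin_cases i <;> fin_cases j
  · simp
  · exact key _ _ _ _ h2
  · exact h1
  · exact h2
  · simp
  · exact key _ _ _ _ h0
  · exact key _ _ _ _ h1
  · exact h0
  · simp

theorem swap {P : Ideal (A 6)} (h : Eqns P) (j : Fin 3) {a b : ℕ} {g : A 6}
    (hg : g ∈ bi 6 (a + 1) b) :
    ∃ g' ∈ bi 6 a (b + 1), vv j * g - X (Sum.inl j) * g' ∈ P := by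
  rw [bi_eq, restrictSupport_eq_span] at hg
  induction hg using Submodule.span_induction with
  | mem x hx =>
    obtain ⟨m, hm, rfl⟩ := hx
    obtain ⟨h1, h2⟩ := hm
    have h3 : ∃ i : Fin 3, 0 < m (Sum.inl i) := by
      by_contra hne
      push Not at hne
      have : ∑ i, m (Sum.inl i) = 0 := Finset.sum_eq_zero fun i _ => by
        have := hne i
        omega
      omega
    obtain ⟨i, hi⟩ := h3
    let m' := m - Finsupp.single (Sum.inl i) 1
    have h4 : m = Finsupp.single (Sum.inl i) 1 + m' := by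
      ext k
      by_cases hk : k = Sum.inl i
      · subst hk
        simp only [Finsupp.add_apply, Finsupp.single_eq_same, m', Finsupp.tsub_apply]
        omega
      · simp only [Finsupp.add_apply, m', Finsupp.tsub_apply, Finsupp.single_apply,
          if_neg (Ne.symm hk)]
        omega
    have h5 : (monomial m (1 : ℂ) : A 6) = X (Sum.inl i) * monomial m' 1 := by
      rw [h4, X, monomial_mul, one_mul]
    refine ⟨vv i * monomial m' 1, ?_, ?_⟩
    · have h6 : (monomial m' (1 : ℂ) : A 6) ∈ bi 6 a b := by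
        rw [bi_eq, monomial_mem_restrictSupport]
        left
        have h7 : ∑ i, m (Sum.inl i) = 1 + ∑ i, m' (Sum.inl i) := by
          rw [h4]
          simp only [Finsupp.add_apply, Finset.sum_add_distrib]
          congr 1
          simp [Finsupp.single_apply]
        have h8 : ∑ i, m (Sum.inr i) = ∑ i, m' (Sum.inr i) := by
          rw [h4]
          simp [Finsupp.single_apply]
        exact ⟨by omega, by omega⟩
      have h9 : vv i ∈ bi 6 0 1 := isWeightedHomogeneous_X ℂ (wt 6) _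
      have := mul_mem_bi h9 h6
      rwa [zero_add, add_comm 1 b] at this
    · show vv j * monomial m (1 : ℂ) - _ ∈ P
      rw [h5]
      have h6 : vv j * (X (Sum.inl i) * monomial m' 1) - X (Sum.inl j) * (vv i * monomial m' 1) =
          ((X (Sum.inl i) : A 6) * vv j - X (Sum.inl j) * vv i) * monomial m' 1 := by ring
      rw [h6]
      exact Ideal.mul_mem_right _ _ (eqns_all h i j)
  | zero => exact ⟨0, Submodule.zero_mem _, by simp⟩
  | add x y _ _ hx hy =>
    obtain ⟨x', hx1, hx2⟩ := hx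
    obtain ⟨y', hy1, hy2⟩ := hy
    refine ⟨x' + y', Submodule.add_mem _ hx1 hy1, ?_⟩
    have : vv j * (x + y) - X (Sum.inl j) * (x' + y') =
      (vv j * x - X (Sum.inl j) * x') + (vv j * y - X (Sum.inl j) * y') := by ring
    rw [this]
    exact add_mem hx2 hy2
  | smul c x _ hx =>
    obtain ⟨x', hx1, hx2⟩ := hx
    refine ⟨c • x', Submodule.smul_mem _ _ hx1, ?_⟩
    have : vv j * (c • x) - X (Sum.inl j) * (c • x') = C c * (vv j * x - X (Sum.inl j) * x') := by
      rw [smul_eq_C_mul, smul_eq_C_mul]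
      ring
    rw [this]
    exact Ideal.mul_mem_left _ _ hx2

theorem finrank_mulLeft {N : ℕ} {P : Ideal (A N)} (hP : P.IsPrime) {v : A N} (hv : v ∉ P)
    (U : Submodule ℂ (A N ⧸ P)) :
    Module.finrank ℂ (U.map (LinearMap.mulLeft ℂ (Ideal.Quotient.mk P v))) =
      Module.finrank ℂ U := by
  have : IsDomain (A N ⧸ P) := (Ideal.Quotient.isDomain_iff_prime P).2 hP
  have hne : Ideal.Quotient.mk P v ≠ 0 := fun h => hv (Ideal.Quotient.eq_zero_iff_mem.1 h)
  have hinj : Function.Injective (LinearMap.mulLeft ℂ (Ideal.Quotient.mk P v)) :=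
    fun x y hxy => mul_left_cancel₀ hne hxy
  exact (Submodule.equivMapOfInjective _ hinj U).finrank_eq.symm

theorem lam (_h : S_FIN) : S_LAM := by
  intro P hP hE hx hv a b
  obtain ⟨i, hi⟩ := hx
  have hv' : ∃ j, vv j ∉ P := by
    rcases hv with h | h | h
    · exact ⟨0, h⟩
    · exact ⟨1, h⟩
    · exact ⟨2, h⟩
  obtain ⟨j, hj⟩ := hv'
  have hxj : (X (Sum.inl j) : A 6) ∉ P := by
    intro h
    have h1 := eqns_all hE i j
    have h2 : (X (Sum.inl i) : A 6) * vv j ∈ P := by
      have := add_mem h1 (Ideal.mul_mem_right (vv i) P h)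
      rwa [sub_add_cancel] at this
    rcases hP.mem_or_mem h2 with h3 | h3
    · exact hi h3
    · exact hj h3
  have fin1 := bi_finite 6 a (b + 1)
  have e1 := finrank_mulLeft hP hj ((bi 6 (a + 1) b).map (Ideal.Quotient.mkₐ ℂ P).toLinearMap)
  have e2 := finrank_mulLeft hP hxj ((bi 6 a (b + 1)).map (Ideal.Quotient.mkₐ ℂ P).toLinearMap)
  rw [hf, hf, ← e1, ← e2]
  apply Submodule.finrank_mono
  rintro _ ⟨_, ⟨g, hg, rfl⟩, rfl⟩
  obtain ⟨g', hg', h1⟩ := swap hE j hg
  refine ⟨Ideal.Quotient.mk P g', ⟨g', hg', rfl⟩, ?_⟩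
  show Ideal.Quotient.mk P (X (Sum.inl j)) * Ideal.Quotient.mk P g' =
    Ideal.Quotient.mk P (vv j) * Ideal.Quotient.mk P g
  rw [← map_mul, ← map_mul, eq_comm, Ideal.Quotient.eq]
  exact h1

end Q36.PB
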