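import Mathlib
import Pool.Agent.Q36.PB.Stm

/-!
# Limits of Hilbert functions
-/

set_option autoImplicit false

open MvPolynomial Filter Topology

namespace Q36.PB

/-- The Hilbert polynomial of the hypersurface. -/
noncomputable def pq (a b : ℝ) : ℝ :=
  (a + 2) * (a + 1) / 2 * ((b + 2) * (b + 1) / 2) - a * (a - 1) / 2 * ((b + 1) * b / 2)

/-- The Hilbert polynomial of the complete intersection. -/
noncomputable def pg (c d a b : ℝ) : ℝ := pq a b - pq (a - c) (b - d)

theorem lim_quad (L M K : ℝ) :
    Tendsto (fun n : ℕ => (L * (n : ℝ) ^ 2 + M * n + K) / (n : ℝ) ^ 2) atTop (𝓝 L) := by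
  have h1 : Tendsto (fun n : ℕ => L + M / (n : ℝ) + K / (n : ℝ) ^ 2) atTop (𝓝 (L + 0 + 0)) := by
    refine (tendsto_const_nhds.add (tendsto_const_div_atTop_nhds_zero_nat M)).add ?_
    exact tendsto_const_nhds.div_atTop
      ((tendsto_pow_atTop (by norm_num)).comp tendsto_natCast_atTop_atTop)
  rw [add_zero, add_zero] at h1
  refine h1.congr' ?_
  filter_upwards [eventually_gt_atTop 0] with n hn
  have hn' : (n : ℝ) ≠ 0 := Nat.cast_ne_zero.2 hn.ne'
  field_simp

theorem lim : S_LIM := by
  intro Q hQ
  have q1 : ∀ a b : ℕ, 2 ≤ a → 1 ≤ b → (Q a b : ℝ) = pq a b := by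
    intro a b ha hb
    obtain ⟨a, rfl⟩ := Nat.exists_eq_add_of_le ha
    obtain ⟨b, rfl⟩ := Nat.exists_eq_add_of_le hb
    have h := hQ a b
    have h' : (Q (a + 2) (b + 1) : ℝ) + ((a + 2).choose 2 : ℕ) * ((b + 2).choose 2 : ℕ) =
        ((a + 4).choose 2 : ℕ) * ((b + 3).choose 2 : ℕ) := by exact_mod_cast h
    rw [Nat.cast_choose_two, Nat.cast_choose_two, Nat.cast_choose_two, Nat.cast_choose_two] at h'
    rw [add_comm 2 a, add_comm 1 b, pq]
    push_cast at h' ⊢
    linarith
  refine ⟨?_, ?_⟩
  · refine tendsto_atTop_mono' atTop ?_ tendsto_natCast_atTop_atTop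
    filter_upwards [eventually_ge_atTop 2] with n hn
    rw [mul_one, q1 n n hn (by omega), pq]
    have hn' : (0 : ℝ) < n := Nat.cast_pos.2 (by omega)
    rw [le_div_iff₀ (by positivity)]
    have h3 : 0 < (n : ℝ) ^ 3 := by positivity
    have h2 : 0 < (n : ℝ) ^ 2 := by positivity
    nlinarith
  · intro c d G hG
    have g1 : ∀ a b : ℕ, c + 2 ≤ a → d + 1 ≤ b → (G a b : ℝ) = pg c d a b := by
      intro a b ha hb
      obtain ⟨a', rfl⟩ := Nat.exists_eq_add_of_le' (show c ≤ a by omega)
      obtain ⟨b', rfl⟩ := Nat.exists_eq_add_of_le' (show d ≤ b by omega)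
      have h := hG a' b'
      have h' : (G (a' + c) (b' + d) : ℝ) + Q a' b' = Q (a' + c) (b' + d) := by exact_mod_cast h
      rw [q1 a' b' (by omega) (by omega), q1 (a' + c) (b' + d) (by omega) (by omega)] at h'
      rw [pg]
      push_cast at h' ⊢
      rw [add_sub_cancel_right, add_sub_cancel_right]
      linarith
    refine ⟨?_, ?_⟩
    · intro a b ha hb
      have key : ∀ t : ℝ, pg c d (t * a) (t * b) =
          ((c : ℝ) * b ^ 2 + (c + 2 * d) * a * b + d * a ^ 2 / 2) * t ^ 2 +
          ((pg c d a b - pg c d (-a) (-b)) / 2) * t + pg c d 0 0 := by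
        intro t
        simp only [pg, pq]
        ring
      refine (lim_quad _ ((pg c d a b - pg c d (-a) (-b)) / 2) (pg c d 0 0)).congr' ?_
      filter_upwards [eventually_ge_atTop (c + d + 2)] with n hn
      rw [g1 (n * a) (n * b) (by nlinarith) (by nlinarith)]
      push_cast
      rw [key]
    · intro c' d' H hH a b ha hb
      have h1 : ∀ a b : ℕ, c' + c + 2 ≤ a → d' + d + 1 ≤ b →
          (H a b : ℝ) ≤ pg c d a b - pg c d (a - c') (b - d') := by
        intro a b ha hb
        obtain ⟨a', rfl⟩ := Nat.exists_eq_add_of_le' (show c' ≤ a by omega)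
        obtain ⟨b', rfl⟩ := Nat.exists_eq_add_of_le' (show d' ≤ b by omega)
        have h := hH a' b'
        have h' : (H (a' + c') (b' + d') : ℝ) + G a' b' ≤ G (a' + c') (b' + d') := by
          exact_mod_cast h
        rw [g1 a' b' (by omega) (by omega), g1 (a' + c') (b' + d') (by omega) (by omega)] at h'
        push_cast at h' ⊢
        rw [add_sub_cancel_right, add_sub_cancel_right]
        linarith
      have key : ∀ t : ℝ, pg c d (t * a) (t * b) - pg c d (t * a - c') (t * b - d') =
          0 * t ^ 2 + ((pg c d a b - pg c d (a - c') (b - d')) -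
            (pg c d 0 0 - pg c d (-c') (-d'))) * t + (pg c d 0 0 - pg c d (-c') (-d')) := by
        intro t
        simp only [pg, pq]
        ring
      refine tendsto_of_tendsto_of_tendsto_of_le_of_le' tendsto_const_nhds
        (lim_quad 0 ((pg c d a b - pg c d (a - c') (b - d')) -
            (pg c d 0 0 - pg c d (-c') (-d'))) (pg c d 0 0 - pg c d (-c') (-d'))) ?_ ?_
      · exact Eventually.of_forall fun n => by positivity
      · filter_upwards [eventually_ge_atTop (c + d + c' + d' + 2)] with n hn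
        rw [← key]
        have h2 := h1 (n * a) (n * b) (by nlinarith) (by nlinarith)
        push_cast at h2
        gcongr

end Q36.PB
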