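import Mathlib
import Pool.Agent.Q36.PB.Stm

/-!
# Factorial hypersurface rings
-/

set_option autoImplicit false

open Filter Topology

namespace Q36.PB

theorem lin_prime {B : Type} [CommRing B] [IsDomain B] [UniqueFactorizationMonoid B] (x β : B)
    (k : ℕ) (hx : Prime x) (hβ : ¬ x ∣ β) :
    Prime (Polynomial.C (x ^ k) * Polynomial.X + Polynomial.C β) := by
  apply Irreducible.prime
  apply Polynomial.irreducible_C_mul_X_add_C (pow_ne_zero k hx.ne_zero)
  exact IsRelPrime.pow_left (hx.irreducible.isRelPrime_iff_not_dvd.2 hβ)

section UFB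

variable {B : Type} [CommRing B] (x β : B) (k : ℕ)

/-- The ideal of the hypersurface. -/
noncomputable abbrev II : Ideal (Polynomial B) :=
  Ideal.span {Polynomial.C (x ^ k) * Polynomial.X + Polynomial.C β}

/-- The root. -/
noncomputable def theta : Localization.Away x :=
  -(algebraMap B (Localization.Away x) β * (IsLocalization.Away.invSelf x) ^ k)

theorem theta_eq : algebraMap B (Localization.Away x) x ^ k * theta x β k =
    -algebraMap B (Localization.Away x) β := by
  have h := IsLocalization.Away.mul_invSelf (S := Localization.Away x) x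
  have h2 : (algebraMap B (Localization.Away x) x * IsLocalization.Away.invSelf x) ^ k = 1 := by
    rw [h, one_pow]
  rw [mul_pow] at h2
  rw [theta]
  linear_combination (-algebraMap B (Localization.Away x) β) * h2

/-- The map to the localisation. -/
noncomputable def toK : (Polynomial B ⧸ II x β k) →+* Localization.Away x :=
  Ideal.Quotient.lift (II x β k)
    (Polynomial.eval₂RingHom (algebraMap B (Localization.Away x)) (theta x β k)) (by
      intro a ha
      obtain ⟨c, rfl⟩ := Ideal.mem_span_singleton'.1 ha
      rw [map_mul]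
      have : Polynomial.eval₂RingHom (algebraMap B (Localization.Away x)) (theta x β k)
          (Polynomial.C (x ^ k) * Polynomial.X + Polynomial.C β) = 0 := by
        rw [Polynomial.coe_eval₂RingHom, Polynomial.eval₂_add, Polynomial.eval₂_mul,
          Polynomial.eval₂_C, Polynomial.eval₂_X, Polynomial.eval₂_C, map_pow, theta_eq]
        ring
      rw [this, mul_zero])

theorem toK_C (b : B) : toK x β k (Ideal.Quotient.mk _ (Polynomial.C b)) =
    algebraMap B (Localization.Away x) b := by
  rw [toK, Ideal.Quotient.lift_mk, Polynomial.coe_eval₂RingHom, Polynomial.eval₂_C]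

theorem clear_denom (r : Polynomial B ⧸ II x β k) : ∃ (n : ℕ) (c : B),
    (Ideal.Quotient.mk (II x β k) (Polynomial.C x)) ^ n * r =
      Ideal.Quotient.mk (II x β k) (Polynomial.C c) := by
  obtain ⟨p, rfl⟩ := Ideal.Quotient.mk_surjective r
  induction p using Polynomial.induction_on' with
  | add p q hp hq =>
    obtain ⟨n, c, h1⟩ := hp
    obtain ⟨m, d, h2⟩ := hq
    refine ⟨n + m, x ^ m * c + x ^ n * d, ?_⟩
    simp only [map_add, map_mul, map_pow]
    rw [pow_add, ← h1, ← h2]
    ring
  | monomial i b =>
    refine ⟨k * i, b * (-β) ^ i, ?_⟩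
    have h0 : Ideal.Quotient.mk (II x β k) (Polynomial.C x) ^ k *
        Ideal.Quotient.mk (II x β k) Polynomial.X =
        -Ideal.Quotient.mk (II x β k) (Polynomial.C β) := by
      rw [eq_neg_iff_add_eq_zero, ← map_pow, ← map_mul, ← map_add, Ideal.Quotient.eq_zero_iff_mem,
        ← map_pow]
      exact Ideal.mem_span_singleton_self _
    rw [← Polynomial.C_mul_X_pow_eq_monomial, map_mul, map_pow, pow_mul]
    have h1 : (Ideal.Quotient.mk (II x β k) (Polynomial.C x) ^ k) ^ i *
        (Ideal.Quotient.mk (II x β k) (Polynomial.C b) *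
          Ideal.Quotient.mk (II x β k) Polynomial.X ^ i) =
        Ideal.Quotient.mk (II x β k) (Polynomial.C b) *
        (Ideal.Quotient.mk (II x β k) (Polynomial.C x) ^ k *
          Ideal.Quotient.mk (II x β k) Polynomial.X) ^ i := by
      rw [mul_pow]
      ring
    rw [h1, h0]
    simp only [map_mul, map_pow, map_neg]

theorem ufb' [IsDomain B] [IsNoetherianRing B] [UniqueFactorizationMonoid B] (hx : Prime x) (hβ : ¬ x ∣ β)
    (hp : (Ideal.span {x, β} : Ideal B).IsPrime) (hk : 1 ≤ k) :
    UniqueFactorizationMonoid (Polynomial B ⧸ II x β k) := by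
  have hI : (II x β k).IsPrime := by
    have := lin_prime x β k hx hβ
    exact (Ideal.span_singleton_prime this.ne_zero).2 this
  have hdom : IsDomain (Polynomial B ⧸ II x β k) := (Ideal.Quotient.isDomain_iff_prime _).2 hI
  have hinj : Function.Injective (algebraMap B (Localization.Away x)) :=
    IsLocalization.injective _ (powers_le_nonZeroDivisors_of_noZeroDivisors hx.ne_zero)
  set xb : Polynomial B ⧸ II x β k := Ideal.Quotient.mk (II x β k) (Polynomial.C x) with hxb
  have hunit : IsUnit (algebraMap B (Localization.Away x) x) :=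
    IsLocalization.Away.algebraMap_isUnit x
  let _ : Algebra (Polynomial B ⧸ II x β k) (Localization.Away x) := (toK x β k).toAlgebra
  have halg : ∀ b, algebraMap (Polynomial B ⧸ II x β k) (Localization.Away x) b =
    toK x β k b := fun b => rfl
  have hxbu : algebraMap (Polynomial B ⧸ II x β k) (Localization.Away x) xb =
      algebraMap B (Localization.Away x) x := toK_C x β k x
  have hxb0 : xb ≠ 0 := by
    intro h
    rw [h, map_zero] at hxbu
    have := IsLocalization.Away.isDomain (Localization.Away x) hx.ne_zero
    rw [← hxbu] at hunit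
    exact not_isUnit_zero hunit
  have hloc : IsLocalization.Away xb (Localization.Away x) := by
    refine ⟨?_, ?_, ?_⟩
    · rintro ⟨y, n, rfl⟩
      rw [map_pow, hxbu]
      exact hunit.pow n
    · intro z
      obtain ⟨⟨b, ⟨s, n, rfl⟩⟩, hz⟩ := IsLocalization.surj (Submonoid.powers x) z
      refine ⟨⟨Ideal.Quotient.mk _ (Polynomial.C b), ⟨xb ^ n, n, rfl⟩⟩, ?_⟩
      simp only [map_pow, hxbu] at hz ⊢
      rw [halg, toK_C]
      exact hz
    · intro r s hrs
      obtain ⟨n, c, hc⟩ := clear_denom x β k (r - s)
      have h1 : algebraMap B (Localization.Away x) c = 0 := by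
        rw [← toK_C x β k c, ← hc, map_mul, map_sub]
        rw [halg, halg] at hrs
        rw [hrs, sub_self, mul_zero]
      have h2 : c = 0 := hinj (by rw [h1, map_zero])
      refine ⟨⟨xb ^ n, n, rfl⟩, ?_⟩
      rw [h2, map_zero, map_zero, mul_sub, sub_eq_zero] at hc
      exact hc
  have hprime : Prime xb := by
    rw [← Ideal.span_singleton_prime hxb0]
    have h1 : (Ideal.map (Polynomial.C : B →+* Polynomial B) (Ideal.span {x, β})).IsPrime :=
      Ideal.isPrime_map_C_of_isPrime
    have h2 : II x β k ≤ Ideal.map (Polynomial.C : B →+* Polynomial B) (Ideal.span {x, β}) := by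
      rw [Ideal.span_singleton_le_iff_mem]
      have m1 : Polynomial.C x ∈ Ideal.map (Polynomial.C : B →+* Polynomial B)
          (Ideal.span {x, β}) := Ideal.mem_map_of_mem _ (Ideal.subset_span (by simp))
      have m2 : Polynomial.C β ∈ Ideal.map (Polynomial.C : B →+* Polynomial B)
          (Ideal.span {x, β}) := Ideal.mem_map_of_mem _ (Ideal.subset_span (by simp))
      refine add_mem (Ideal.mul_mem_right _ _ ?_) m2
      rw [map_pow]
      exact Ideal.pow_mem_of_mem _ m1 k (by omega)
    have h3 := Ideal.map_isPrime_of_surjective (f := Ideal.Quotient.mk (II x β k))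
      Ideal.Quotient.mk_surjective (I := Ideal.map (Polynomial.C : B →+* Polynomial B)
        (Ideal.span {x, β})) (by rw [Ideal.mk_ker]; exact h2)
    have h4 : Ideal.map (Ideal.Quotient.mk (II x β k))
        (Ideal.map (Polynomial.C : B →+* Polynomial B) (Ideal.span {x, β})) = Ideal.span {xb} := by
      rw [Ideal.map_span, Ideal.map_span, Set.image_pair, Set.image_pair]
      apply le_antisymm
      · rw [Ideal.span_le, Set.insert_subset_iff, Set.singleton_subset_iff]
        refine ⟨Ideal.mem_span_singleton_self _, ?_⟩
        show Ideal.Quotient.mk (II x β k) (Polynomial.C β) ∈ Ideal.span {xb}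
        rw [Ideal.mem_span_singleton]
        have h0 : xb ^ k * Ideal.Quotient.mk (II x β k) Polynomial.X =
            -Ideal.Quotient.mk (II x β k) (Polynomial.C β) := by
          rw [eq_neg_iff_add_eq_zero, hxb, ← map_pow, ← map_mul, ← map_add,
            Ideal.Quotient.eq_zero_iff_mem, ← map_pow]
          exact Ideal.mem_span_singleton_self _
        rw [← dvd_neg, ← h0]
        exact Dvd.dvd.mul_right (dvd_pow_self xb (by omega)) _
      · exact Ideal.span_mono (Set.singleton_subset_iff.2 (Set.mem_insert _ _))
    rw [h4] at h3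
    exact h3
  rw [UniqueFactorizationMonoid.iff_of_isLocalizationAway_of_prime hprime (Localization.Away x)]
  exact UniqueFactorizationMonoid.of_isLocalization (Submonoid.powers x) (Localization.Away x)

end UFB

theorem nag : S_NAG := by
  intro R K _ _ _ _ _ _ x _ _ hx
  exact (UniqueFactorizationMonoid.iff_of_isLocalizationAway_of_prime hx K).2 inferInstance

theorem ufb : S_UFB := by
  intro B _ _ _ _ x β k hx hβ hp hk
  exact ufb' x β k hx hβ hp hk

end Q36.PB
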