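import Mathlib
import Pool.Agent.Q36.PB.Ufb

/-!
# The quadric-like hypersurface is factorial
-/

set_option autoImplicit false

open MvPolynomial Filter Topology

namespace Q36.PB

section Gen

variable {σ : Type} [DecidableEq σ] (s : σ)

/-- Polynomials in one variable more. -/
noncomputable def es : MvPolynomial σ ℂ ≃ₐ[ℂ] Polynomial (MvPolynomial {y // y ≠ s} ℂ) :=
  (renameEquiv ℂ (Equiv.optionSubtypeNe s).symm).trans (optionEquivLeft ℂ {y // y ≠ s})

theorem es_self : es s (X s) = Polynomial.X := by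
  rw [es, AlgEquiv.trans_apply, renameEquiv_apply, rename_X, Equiv.optionSubtypeNe_symm_self,
    optionEquivLeft_X_none]

theorem es_ne (y : {y // y ≠ s}) : es s (X y.1) = Polynomial.C (X y) := by
  rw [es, AlgEquiv.trans_apply, renameEquiv_apply, rename_X,
    Equiv.optionSubtypeNe_symm_of_ne y.2, optionEquivLeft_X_some]

theorem es_rename (p : MvPolynomial {y // y ≠ s} ℂ) :
    es s (rename Subtype.val p) = Polynomial.C p := by
  induction p using MvPolynomial.induction_on with
  | C a =>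
    rw [rename_C, es, AlgEquiv.trans_apply, renameEquiv_apply, rename_C, optionEquivLeft_C]
  | add p q hp hq => rw [map_add, map_add, map_add, hp, hq]
  | mul_X p n hp => rw [map_mul, map_mul, map_mul, rename_X, es_ne, hp]

theorem lemL (x : {y // y ≠ s}) (β : MvPolynomial {y // y ≠ s} ℂ) (h : ¬ X x ∣ β) :
    Prime (X x.1 ^ 2 * X s + rename Subtype.val β : MvPolynomial σ ℂ) := by
  rw [← MulEquiv.prime_iff (es s)]
  have h1 : es s (X x.1 ^ 2 * X s + rename Subtype.val β) =
      Polynomial.C (X x ^ 2) * Polynomial.X + Polynomial.C β := by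
    rw [map_add, map_mul, map_pow, es_ne, es_self, es_rename, map_pow]
  have h2 := lin_prime (X x) β 2 X_prime h
  rw [← h1] at h2
  exact h2

theorem lemM (x y s t : σ) (h1 : x ≠ y) (h2 : x ≠ s) (h3 : x ≠ t) (h4 : y ≠ s) (h6 : t ≠ s) :
    Prime (X x ^ 2 * X s + X y ^ 2 * X t : MvPolynomial σ ℂ) := by
  have h := lemL s ⟨x, h2⟩ (X ⟨y, h4⟩ ^ 2 * X ⟨t, h6⟩) (by
    intro hd
    have hp : Prime (X (⟨x, h2⟩ : {y // y ≠ s}) : MvPolynomial {y // y ≠ s} ℂ) := X_prime
    rcases hp.dvd_or_dvd hd with h | h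
    · have := hp.dvd_of_dvd_pow h
      rw [X_dvd_X] at this
      exact h1 (congrArg Subtype.val this)
    · rw [X_dvd_X] at h
      exact h3 (congrArg Subtype.val h))
  rw [map_mul, map_pow, rename_X, rename_X] at h
  exact h

/-- The substitution `X s ↦ 0`. -/
noncomputable def sub0 : MvPolynomial σ ℂ →ₐ[ℂ] MvPolynomial σ ℂ :=
  aeval fun i => if i = s then 0 else X i

theorem sub0_sub (p : MvPolynomial σ ℂ) : p - sub0 s p ∈ Ideal.span {(X s : MvPolynomial σ ℂ)} := by
  have h : (Ideal.Quotient.mkₐ ℂ (Ideal.span {(X s : MvPolynomial σ ℂ)})).comp (sub0 s) =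
      Ideal.Quotient.mkₐ ℂ (Ideal.span {(X s : MvPolynomial σ ℂ)}) := by
    apply MvPolynomial.algHom_ext
    intro i
    rw [AlgHom.comp_apply, sub0, aeval_X]
    by_cases hi : i = s
    · rw [if_pos hi, map_zero, hi]
      exact (Ideal.Quotient.eq_zero_iff_mem.2 (Ideal.mem_span_singleton_self _)).symm
    · rw [if_neg hi]
  rw [← Ideal.Quotient.eq]
  exact (DFunLike.congr_fun h p).symm

theorem lemK (β : MvPolynomial σ ℂ) (hβ : Prime β) (h : sub0 s β = β) :
    (Ideal.span {X s, β} : Ideal (MvPolynomial σ ℂ)).IsPrime := by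
  have h1 : (Ideal.span {β} : Ideal (MvPolynomial σ ℂ)).IsPrime :=
    (Ideal.span_singleton_prime hβ.ne_zero).2 hβ
  have h2 : (Ideal.span {X s, β} : Ideal (MvPolynomial σ ℂ)) =
      (Ideal.span {β}).comap (sub0 s).toRingHom := by
    apply le_antisymm
    · rw [Ideal.span_le, Set.insert_subset_iff, Set.singleton_subset_iff]
      constructor
      · show sub0 s (X s) ∈ Ideal.span {β}
        rw [sub0, aeval_X, if_pos rfl]
        exact zero_mem _
      · show sub0 s β ∈ Ideal.span {β}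
        rw [h]
        exact Ideal.mem_span_singleton_self _
    · intro p hp
      have h3 : sub0 s p ∈ Ideal.span {β} := hp
      have h4 := sub0_sub s p
      have e : p = (p - sub0 s p) + sub0 s p := by ring
      rw [e]
      exact add_mem (Ideal.span_mono (Set.singleton_subset_iff.2 (Set.mem_insert _ _)) h4)
        (Ideal.span_mono (Set.subset_insert _ _) h3)
  rw [h2]
  exact Ideal.comap_isPrime _ _

end Gen

/-- The second part of `q`. -/
noncomputable def bt : A 3 :=
  X (Sum.inl 1) ^ 2 * X (Sum.inr 1) + X (Sum.inl 2) ^ 2 * X (Sum.inr 2)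

theorem q_eq : q = X (Sum.inl 0) ^ 2 * X (Sum.inr 0) + bt := by
  rw [q, Fin.sum_univ_three, bt, add_assoc]

/-- The other variables. -/
abbrev S0 : Type := {y : Fin 3 ⊕ Fin 3 // y ≠ Sum.inr 0}

/-- The second part of `q` in its own ring. -/
noncomputable def bt0 : MvPolynomial S0 ℂ :=
  X ⟨Sum.inl 1, by decide⟩ ^ 2 * X ⟨Sum.inr 1, by decide⟩ +
    X ⟨Sum.inl 2, by decide⟩ ^ 2 * X ⟨Sum.inr 2, by decide⟩

theorem rename_bt0 : rename Subtype.val bt0 = bt := by
  rw [bt0, map_add, map_mul, map_mul, map_pow, map_pow, rename_X, rename_X, rename_X, rename_X, bt]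

/-- The variable `x₀`. -/
def x00 : S0 := ⟨Sum.inl 0, by decide⟩

theorem bt0_prime : Prime bt0 :=
  lemM _ _ _ _ (by decide) (by decide) (by decide) (by decide) (by decide)

theorem bt_prime : Prime bt :=
  lemM _ _ _ _ (by decide) (by decide) (by decide) (by decide) (by decide)

theorem not_dvd_bt0 : ¬ X x00 ∣ bt0 := by
  rintro ⟨c, hc⟩
  let pt : S0 → ℂ := fun y => if y.1 = Sum.inl 1 ∨ y.1 = Sum.inr 1 then 1 else 0
  have h1 := congrArg (eval pt) hc
  rw [map_mul, eval_X, bt0] at h1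
  simp [pt, x00] at h1

theorem sub0_bt0 : sub0 x00 bt0 = bt0 := by
  have h : ∀ y : S0, y ≠ x00 → sub0 x00 (X y) = X y := fun y hy => by
    rw [sub0, aeval_X, if_neg hy]
  rw [bt0, map_add, map_mul, map_mul, map_pow, map_pow, h _ (by decide), h _ (by decide),
    h _ (by decide), h _ (by decide)]

theorem sub0_bt : sub0 (Sum.inr 0 : Fin 3 ⊕ Fin 3) bt = bt := by
  have h : ∀ y : Fin 3 ⊕ Fin 3, y ≠ Sum.inr 0 → sub0 (Sum.inr 0) (X y) = X y := fun y hy => by
    rw [sub0, aeval_X, if_neg hy]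
  rw [bt, map_add, map_mul, map_mul, map_pow, map_pow, h _ (by decide), h _ (by decide),
    h _ (by decide), h _ (by decide)]

theorem q_prime : Prime q := by
  have h := lemL (Sum.inr 0 : Fin 3 ⊕ Fin 3) x00 bt0 not_dvd_bt0
  rw [rename_bt0] at h
  rw [q_eq]
  exact h

theorem es_q : es (Sum.inr 0 : Fin 3 ⊕ Fin 3) q =
    Polynomial.C (X x00 ^ 2) * Polynomial.X + Polynomial.C bt0 := by
  have h : es (Sum.inr 0 : Fin 3 ⊕ Fin 3) (X (Sum.inl 0)) = Polynomial.C (X x00) :=
    es_ne (Sum.inr 0 : Fin 3 ⊕ Fin 3) x00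
  rw [q_eq, map_add, map_mul, map_pow, h, es_self, ← rename_bt0, es_rename, map_pow]

theorem ufm_q : UniqueFactorizationMonoid (A 3 ⧸ (Ideal.span {q} : Ideal (A 3))) := by
  have h1 : UniqueFactorizationMonoid (Polynomial (MvPolynomial S0 ℂ) ⧸ II (X x00) bt0 2) :=
    ufb' (X x00) bt0 2 X_prime not_dvd_bt0 (lemK x00 bt0 bt0_prime sub0_bt0) (by norm_num)
  let e := Ideal.quotientEquiv (Ideal.span {q} : Ideal (A 3)) (II (X x00) bt0 2)
    (es (Sum.inr 0 : Fin 3 ⊕ Fin 3)).toRingEquiv (by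
      rw [Ideal.map_span, Set.image_singleton]
      have : (es (Sum.inr 0 : Fin 3 ⊕ Fin 3)).toRingEquiv q =
        Polynomial.C (X x00 ^ 2) * Polynomial.X + Polynomial.C bt0 := es_q
      rw [II, ← this]
      rfl)
  exact MulEquiv.uniqueFactorizationMonoid e.toMulEquiv.symm h1

theorem span_q_u : (Ideal.span {q, X (Sum.inr 0)} : Ideal (A 3)) =
    Ideal.span {X (Sum.inr 0), bt} := by
  apply le_antisymm
  · rw [Ideal.span_le, Set.insert_subset_iff, Set.singleton_subset_iff]
    refine ⟨?_, Ideal.subset_span (by simp)⟩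
    rw [q_eq]
    exact add_mem (Ideal.mul_mem_left _ _ (Ideal.subset_span (by simp)))
      (Ideal.subset_span (by simp))
  · rw [Ideal.span_le, Set.insert_subset_iff, Set.singleton_subset_iff]
    refine ⟨Ideal.subset_span (by simp), ?_⟩
    have e : bt = q - X (Sum.inl 0) ^ 2 * X (Sum.inr 0) := by
      rw [q_eq]
      ring
    rw [e]
    exact sub_mem (Ideal.subset_span (by simp)) (Ideal.mul_mem_left _ _
      (Ideal.subset_span (by simp)))

theorem not_mem_of_eval {S : Set (A 3)} {p : A 3} (pt : Fin 3 ⊕ Fin 3 → ℂ)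
    (h1 : ∀ g ∈ S, eval pt g = 0) (h2 : eval pt p ≠ 0) : p ∉ Ideal.span S := by
  intro h
  have h3 : Ideal.span S ≤ RingHom.ker (eval pt) := by
    rw [Ideal.span_le]
    intro g hg
    exact h1 g hg
  exact h2 (h3 h)

theorem qpr : S_QPR := by
  refine ⟨(Ideal.span_singleton_prime q_prime.ne_zero).2 q_prime, ufm_q, ?_, ?_, ?_, ?_⟩
  · rw [span_q_u]
    exact lemK _ _ bt_prime sub0_bt
  · refine not_mem_of_eval (Sum.elim (fun _ => 0) ![1, 0, 0]) ?_ ?_
    · intro g hg
      rw [Set.mem_singleton_iff.1 hg, q, Fin.sum_univ_three]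
      simp
    · simp
  · refine not_mem_of_eval (Sum.elim ![1, 1, 0] ![0, 0, 1]) ?_ ?_
    · rintro g (rfl | rfl)
      · rw [q, Fin.sum_univ_three]
        simp
      · simp
    · simp
  · refine not_mem_of_eval (Sum.elim (fun _ => 0) ![0, 1, 0]) ?_ ?_
    · rintro g (rfl | rfl)
      · rw [q, Fin.sum_univ_three]
        simp
      · simp
    · simp

end Q36.PB
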