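import Mathlib
import Pool.Agent.Q36.PB.Drp
import Pool.Agent.Q36.PB.Inq

/-!
# The classes of the surfaces in the hypersurface
-/

set_option autoImplicit false

open MvPolynomial Filter Topology

namespace Q36.PB

theorem q_mem : q ∈ bi 3 2 1 := by
  unfold q
  refine Submodule.sum_mem _ fun i _ => ?_
  have h1 := (isWeightedHomogeneous_X ℂ (wt 3) (Sum.inl i : Fin 3 ⊕ Fin 3)).pow 2
  exact h1.mul (isWeightedHomogeneous_X ℂ (wt 3) (Sum.inr i : Fin 3 ⊕ Fin 3))

theorem biHom_Q : BiHom (Ideal.span {q} : Ideal (A 3)) :=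
  biHom_span _ fun g hg => ⟨2, 1, by rw [Set.mem_singleton_iff.1 hg]; exact q_mem⟩

theorem span_qg (g : A 3) : (Ideal.span {q, g} : Ideal (A 3)) = Ideal.span {q} ⊔ Ideal.span {g} := by
  rw [Ideal.span_insert]

theorem q_ne_zero (hQ : S_QPR) : q ≠ 0 := by
  intro h
  apply hQ.2.2.2.2.1
  have h1 := hQ.1
  -- evaluation at a point with `q = 1`
  have h2 : eval (Sum.elim ![1, 0, 0] ![1, 0, 0] : Fin 3 ⊕ Fin 3 → ℂ) q = 1 := by
    rw [q, Fin.sum_univ_three]
    simp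
  rw [h, map_zero] at h2
  exact absurd h2 zero_ne_one

theorem bi_bot : BiHom (⊥ : Ideal (A 3)) := by
  intro p hp d
  rw [Ideal.mem_bot] at hp ⊢
  rw [hp, map_zero]

/-- The Hilbert function of the hypersurface. -/
theorem hfQ (hQ : S_QPR) (hF : S_FIN) (hD : S_DRP) (a b : ℕ) :
    hf (Ideal.span {q} : Ideal (A 3)) (a + 2) (b + 1) + (a + 2).choose 2 * (b + 2).choose 2 =
      (a + 4).choose 2 * (b + 3).choose 2 := by
  have h := hD 3 ⊥ 2 1 q bi_bot q_mem (fun a b h _ h1 => by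
    rw [Ideal.mem_bot] at h1 ⊢
    exact (mul_eq_zero.1 h1).resolve_left (q_ne_zero hQ)) a b
  rw [bot_sup_eq, hF.2.1, hF.2.1] at h
  exact h

theorem hfG (hQ : S_QPR) (hD : S_DRP) {c d : ℕ} {g : A 3} (hg : g ∈ bi 3 c d)
    (hg2 : g ∉ Ideal.span {q}) (a b : ℕ) :
    hf (Ideal.span {q, g}) (a + c) (b + d) + hf (Ideal.span {q} : Ideal (A 3)) a b =
      hf (Ideal.span {q} : Ideal (A 3)) (a + c) (b + d) := by
  rw [span_qg]
  exact hD 3 (Ideal.span {q}) c d g biHom_Q hg (fun a b h _ h1 =>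
    (hQ.1.mem_or_mem h1).resolve_left hg2) a b

theorem hasClass_iff {N : ℕ} (P : Ideal (A N)) (s : Fin 3 → ℝ) : HasClass P 2 s ↔
    ∀ a b : ℕ, 0 < a → 0 < b →
      Tendsto (fun n : ℕ => (hf P (n * a) (n * b) : ℝ) / (n : ℝ) ^ 2) atTop
        (𝓝 (s 0 * (b : ℝ) ^ 2 / 2 + s 1 * a * b + s 2 * (a : ℝ) ^ 2 / 2)) := by
  constructor
  · rintro ⟨-, h⟩ a b ha hb
    have := h a b ha hb
    rwa [form_eq] at this
  · intro h
    refine ⟨fun i hi => ?_, fun a b ha hb => ?_⟩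
    · omega
    · rw [form_eq]
      exact h a b ha hb

theorem rel (hQ : S_QPR) (hM : S_MIN) (hF : S_FIN) (hD : S_DRP) (hL : S_LIM) : S_REL := by
  obtain ⟨l1, l2⟩ := hL (fun a b => hf (Ideal.span {q} : Ideal (A 3)) a b) (hfQ hQ hF hD)
  refine ⟨?_, ?_⟩
  · intro P s hP hb hq hs
    rw [hasClass_iff] at hs
    by_cases hPq : P = Ideal.span {q}
    · exfalso
      subst hPq
      exact not_tendsto_nhds_of_tendsto_atTop l1 _ (hs 1 1 one_pos one_pos)
    obtain ⟨c, d, g, hg, hgP, hgq, h⟩ := hM P hP hb hq hPq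
    obtain ⟨l3, l4⟩ := l2 c d (fun a b => hf (Ideal.span {q, g} : Ideal (A 3)) a b)
      (hfG hQ hD hg hgq)
    have hc : (0 : ℝ) ≤ c := Nat.cast_nonneg c
    have hd : (0 : ℝ) ≤ d := Nat.cast_nonneg d
    rcases h with rfl | ⟨c', d', f, hf1, hf2, hf3⟩
    · have e1 := tendsto_nhds_unique (hs 1 1 one_pos one_pos) (l3 1 1 one_pos one_pos)
      have e2 := tendsto_nhds_unique (hs 2 1 two_pos one_pos) (l3 2 1 two_pos one_pos)
      have e3 := tendsto_nhds_unique (hs 1 2 one_pos two_pos) (l3 1 2 one_pos two_pos)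
      push_cast at e1 e2 e3
      have s0 : s 0 = 2 * c := by linarith
      have s1 : s 1 = c + 2 * d := by linarith
      have s2 : s 2 = d := by linarith
      rw [s0, s1, s2]
      refine ⟨by ring, by linarith, hd⟩
    · have hbg : BiHom (Ideal.span {q, g} : Ideal (A 3)) := biHom_span _ (by
        rintro x (rfl | hx)
        · exact ⟨2, 1, q_mem⟩
        · rw [Set.mem_singleton_iff.1 hx]
          exact ⟨c, d, hg⟩)
      have hH : ∀ a b, hf P (a + c') (b + d') + hf (Ideal.span {q, g} : Ideal (A 3)) a b ≤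
          hf (Ideal.span {q, g} : Ideal (A 3)) (a + c') (b + d') := by
        intro a b
        have h1 := hD 3 (Ideal.span {q, g}) c' d' f hbg hf1 hf3 a b
        have h2 : Ideal.span {q, g} ⊔ Ideal.span {f} ≤ P := by
          rw [sup_le_iff, Ideal.span_le, Ideal.span_le, Set.insert_subset_iff,
            Set.singleton_subset_iff, Set.singleton_subset_iff]
          exact ⟨⟨hq, hgP⟩, hf2⟩
        have h3 := hF.2.2.2 3 _ _ (a + c') (b + d') h2
        omega
      have l5 := l4 c' d' (fun a b => hf P a b) hH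
      have e1 := tendsto_nhds_unique (hs 1 1 one_pos one_pos) (l5 1 1 one_pos one_pos)
      have e2 := tendsto_nhds_unique (hs 2 1 two_pos one_pos) (l5 2 1 two_pos one_pos)
      have e3 := tendsto_nhds_unique (hs 1 2 one_pos two_pos) (l5 1 2 one_pos two_pos)
      push_cast at e1 e2 e3
      have s0 : s 0 = 0 := by linarith
      have s1 : s 1 = 0 := by linarith
      have s2 : s 2 = 0 := by linarith
      rw [s0, s1, s2]
      refine ⟨by ring, le_rfl, le_rfl⟩
  · rw [hasClass_iff]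
    intro a b ha hb
    have hg : (X (Sum.inr 0) : A 3) ∈ bi 3 0 1 := isWeightedHomogeneous_X ℂ (wt 3) _
    have hq4 := hQ.2.2.2.1
    generalize (X (Sum.inr 0) : A 3) = g at hg hq4 ⊢
    have h1 := hfG hQ hD hg hq4
    obtain ⟨l3, -⟩ := l2 0 1 (fun a b => hf (Ideal.span {q, g} : Ideal (A 3)) a b) h1
    have h2 := l3 a b ha hb
    have e : ((0 : ℕ) : ℝ) * (b : ℝ) ^ 2 + ((0 : ℕ) + 2 * (1 : ℕ)) * a * b +
        (1 : ℕ) * (a : ℝ) ^ 2 / 2 = (![0, 2, 1] : Fin 3 → ℝ) 0 * (b : ℝ) ^ 2 / 2 +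
        (![0, 2, 1] : Fin 3 → ℝ) 1 * a * b + (![0, 2, 1] : Fin 3 → ℝ) 2 * (a : ℝ) ^ 2 / 2 := by
      simp only [Matrix.cons_val]
      push_cast
      ring
    rw [← e]
    exact h2

end Q36.PB
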