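import Mathlib
import Pool.Agent.Q36.PB.Stm

/-!
# The matrix of the bundle
-/

set_option autoImplicit false

open MvPolynomial Filter Topology

namespace Q36.PB

theorem m0_hom (i : Fin 4) (j : Fin 6) :
    (M0 i j).IsHomogeneous ((![2, 1, 1, 1] : Fin 4 → ℕ) i) := by
  have hX : ∀ i : Fin 3, (X i : MvPolynomial (Fin 3) ℂ).IsHomogeneous 1 := fun i =>
    isHomogeneous_X _ _
  have hX2 : ∀ i : Fin 3, (X i ^ 2 : MvPolynomial (Fin 3) ℂ).IsHomogeneous 2 := fun i =>
    isHomogeneous_X_pow _ _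
  have hz : ∀ n : ℕ, (0 : MvPolynomial (Fin 3) ℂ).IsHomogeneous n := fun n =>
    isHomogeneous_zero _ _ n
  have hn : ∀ i : Fin 3, (-X i : MvPolynomial (Fin 3) ℂ).IsHomogeneous 1 := fun i => (hX i).neg
  fin_cases i <;> fin_cases j <;>
    first | exact hX2 _ | exact hX _ | exact hn _ | exact hz _

/-- The first equation. -/
noncomputable def ell (x : Fin 3 → ℂ) : (Fin 3 → ℂ) →ₗ[ℂ] ℂ where
  toFun u := x 0 ^ 2 * u 0 + x 1 ^ 2 * u 1 + x 2 ^ 2 * u 2
  map_add' u v := by
    simp only [Pi.add_apply]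
    ring
  map_smul' c u := by
    simp only [Pi.smul_apply, smul_eq_mul, RingHom.id_apply]
    ring

theorem finrank_ker_ell (x : Fin 3 → ℂ) (hx : x ≠ 0) :
    Module.finrank ℂ (LinearMap.ker (ell x)) = 2 := by
  have h1 := LinearMap.finrank_range_add_finrank_ker (ell x)
  have h2 : LinearMap.range (ell x) = ⊤ := by
    rw [LinearMap.range_eq_top]
    have : ∃ i, x i ≠ 0 := by
      by_contra h
      push Not at h
      exact hx (funext h)
    obtain ⟨i, hi⟩ := this
    intro c
    refine ⟨Pi.single i (c / x i ^ 2), ?_⟩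
    show x 0 ^ 2 * (Pi.single i (c / x i ^ 2) : Fin 3 → ℂ) 0 +
      x 1 ^ 2 * (Pi.single i (c / x i ^ 2) : Fin 3 → ℂ) 1 +
      x 2 ^ 2 * (Pi.single i (c / x i ^ 2) : Fin 3 → ℂ) 2 = c
    fin_cases i
    · simp at hi ⊢
      field_simp
    · simp at hi ⊢
      field_simp
    · simp at hi ⊢
      field_simp
  rw [h2, finrank_top, Module.finrank_self, Module.finrank_fin_fun] at h1
  omega

/-- The parametrisation of the kernel. -/
noncomputable def par (x : Fin 3 → ℂ) : (LinearMap.ker (ell x) × ℂ) →ₗ[ℂ] (Fin 6 → ℂ) where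
  toFun p := ![p.1.1 0, p.1.1 1, p.1.1 2, p.2 * x 0, p.2 * x 1, p.2 * x 2]
  map_add' p q := by
    ext i
    fin_cases i <;> simp <;> ring
  map_smul' c p := by
    ext i
    fin_cases i <;> simp <;> ring

theorem mem_ker_iff (x : Fin 3 → ℂ) (w : Fin 6 → ℂ) :
    w ∈ LinearMap.ker (Matrix.mulVecLin (Matrix.of fun i j => eval x (M0 i j))) ↔
      x 0 ^ 2 * w 0 + x 1 ^ 2 * w 1 + x 2 ^ 2 * w 2 = 0 ∧ x 2 * w 4 - x 1 * w 5 = 0 ∧
      -x 2 * w 3 + x 0 * w 5 = 0 ∧ x 1 * w 3 - x 0 * w 4 = 0 := by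
  rw [LinearMap.mem_ker, Matrix.mulVecLin_apply, funext_iff]
  simp only [Matrix.mulVec, dotProduct, Fin.sum_univ_six, Fin.forall_fin_succ, Matrix.of_apply]
  simp [M0, sub_eq_add_neg]

theorem rnk : S_RNK := by
  refine ⟨m0_hom, fun x hx => ?_⟩
  have hi : ∃ i, x i ≠ 0 := by
    by_contra h
    push Not at h
    exact hx (funext h)
  have hinj : Function.Injective (par x) := by
    rintro ⟨⟨u, hu⟩, t⟩ ⟨⟨u', hu'⟩, t'⟩ h
    have h0 : u 0 = u' 0 := congrFun h 0
    have h1 : u 1 = u' 1 := congrFun h 1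
    have h2 : u 2 = u' 2 := congrFun h 2
    have h3 : t * x 0 = t' * x 0 := congrFun h 3
    have h4 : t * x 1 = t' * x 1 := congrFun h 4
    have h5 : t * x 2 = t' * x 2 := congrFun h 5
    have ht : t = t' := by
      obtain ⟨i, hi⟩ := hi
      have : t * x i = t' * x i := by
        fin_cases i
        · exact h3
        · exact h4
        · exact h5
      exact mul_right_cancel₀ hi this
    have huu : u = u' := by
      ext i
      fin_cases i
      · exact h0
      · exact h1
      · exact h2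
    subst ht huu
    rfl
  have hrange : LinearMap.range (par x) =
      LinearMap.ker (Matrix.mulVecLin (Matrix.of fun i j => eval x (M0 i j))) := by
    ext w
    rw [mem_ker_iff]
    constructor
    · rintro ⟨⟨⟨u, hu⟩, t⟩, rfl⟩
      refine ⟨?_, ?_, ?_, ?_⟩
      · exact hu
      · show x 2 * (t * x 1) - x 1 * (t * x 2) = 0
        ring
      · show -x 2 * (t * x 0) + x 0 * (t * x 2) = 0
        ring
      · show x 1 * (t * x 0) - x 0 * (t * x 1) = 0
        ring
    · rintro ⟨h0, h1, h2, h3⟩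
      have ht : ∃ t : ℂ, w 3 = t * x 0 ∧ w 4 = t * x 1 ∧ w 5 = t * x 2 := by
        obtain ⟨i, hi⟩ := hi
        fin_cases i
        · refine ⟨w 3 / x 0, ?_, ?_, ?_⟩ <;> simp only [Fin.zero_eta] at hi <;> field_simp
          · linear_combination -h3
          · linear_combination h2
        · refine ⟨w 4 / x 1, ?_, ?_, ?_⟩ <;> simp only [Fin.mk_one] at hi <;> field_simp
          · linear_combination h3
          · linear_combination -h1
        · refine ⟨w 5 / x 2, ?_, ?_, ?_⟩ <;>
            simp only [Fin.reduceFinMk] at hi <;> field_simp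
          · linear_combination -h2
          · linear_combination h1
      obtain ⟨t, ht0, ht1, ht2⟩ := ht
      refine ⟨⟨⟨![w 0, w 1, w 2], h0⟩, t⟩, ?_⟩
      ext i
      fin_cases i
      · rfl
      · rfl
      · rfl
      · exact ht0.symm
      · exact ht1.symm
      · exact ht2.symm
  rw [← hrange, LinearMap.finrank_range_of_inj hinj, Module.finrank_prod, finrank_ker_ell x hx,
    Module.finrank_self]

end Q36.PB
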