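import Mathlib
import Pool.Agent.Q36.PB.Grk
import Pool.Agent.Q36.PB.Lim
import Pool.Agent.Q36.PB.Inq

/-!
# The three surfaces in the bundle
-/

set_option autoImplicit false

open MvPolynomial Filter Topology

namespace Q36.PB

theorem mono_mem (r : Fin 3 → ℕ) (s : Fin 6 → ℕ) {a b : ℕ} (hr : ∑ i, r i = a)
    (hs : ∑ j, s j = b) :
    ((∏ i, X (Sum.inl i) ^ r i) * ∏ j, X (Sum.inr j) ^ s j : A 6) ∈ bi 6 a b := by
  have h1 : IsWeightedHomogeneous (wt 6) (∏ i, X (Sum.inl i) ^ r i : A 6)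
      (∑ i : Fin 3, r i • ((1, 0) : ℕ × ℕ)) :=
    IsWeightedHomogeneous.prod _ _ _ fun i _ => (isWeightedHomogeneous_X ℂ (wt 6) _).pow _
  have h2 : IsWeightedHomogeneous (wt 6) (∏ j, X (Sum.inr j) ^ s j : A 6)
      (∑ i : Fin 6, s i • ((0, 1) : ℕ × ℕ)) :=
    IsWeightedHomogeneous.prod _ _ _ fun i _ => (isWeightedHomogeneous_X ℂ (wt 6) _).pow _
  have h3 := h1.mul h2
  have h4 : ∑ i : Fin 3, r i • ((1, 0) : ℕ × ℕ) + ∑ i : Fin 6, s i • ((0, 1) : ℕ × ℕ) = (a, b) := by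
    ext
    · simp [Prod.fst_sum, ← hr]
    · simp [Prod.snd_sum, ← hs]
  rw [h4] at h3
  exact h3

/-- The exponents of a weight. -/
def Ew (w : Fin 4 → ℕ × ℕ) (a b : ℕ) : Set (Fin 4 →₀ ℕ) := {t | Finsupp.weight w t = (a + b, b)}

theorem weight4 (w : Fin 4 → ℕ × ℕ) (t : Fin 4 →₀ ℕ) : Finsupp.weight w t =
    (t 0 * (w 0).1 + t 1 * (w 1).1 + t 2 * (w 2).1 + t 3 * (w 3).1,
      t 0 * (w 0).2 + t 1 * (w 1).2 + t 2 * (w 2).2 + t 3 * (w 3).2) := by
  rw [Finsupp.weight_apply, Finsupp.sum_fintype _ _ (fun _ => by simp), Fin.sum_univ_four]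
  rfl

/-- The index set for counting. -/
def J (a b : ℕ) : Finset (Σ _ : ℕ, ℕ) := (Finset.range (b + 1)).sigma fun k => Finset.range (a + k + 1)

theorem card_J (a b : ℕ) : ((J a b).card : ℝ) = (b + 1) * (2 * a + 2 + b) / 2 := by
  rw [J, Finset.card_sigma]
  simp only [Finset.card_range]
  induction b with
  | zero => simp; ring
  | succ b ih =>
    rw [Finset.sum_range_succ]
    push_cast at ih ⊢
    rw [ih]
    ring

theorem hf_surface (φ : A 6 →ₐ[ℂ] MvPolynomial (Fin 4) ℂ) (w : Fin 4 → ℕ × ℕ)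
    (hl : ∀ i, IsWeightedHomogeneous w (φ (X (Sum.inl i))) (1, 0))
    (hr : ∀ j, IsWeightedHomogeneous w (φ (X (Sum.inr j))) (1, 1)) (a b : ℕ)
    (hs : ∀ t ∈ Ew w a b, ∃ p ∈ bi 6 a b,
      φ p = X 0 ^ t 0 * X 1 ^ t 1 * X 2 ^ t 2 * X 3 ^ t 3)
    (g : (Σ _ : ℕ, ℕ) → Fin 4 →₀ ℕ) (a' b' : ℕ)
    (hg : Set.InjOn g (J a' b')) (himg : Ew w a b = g '' (J a' b')) :
    (hf (RingHom.ker φ) a b : ℝ) = (b' + 1) * (2 * a' + 2 + b') / 2 := by
  have h1 : (bi 6 a b).map φ.toLinearMap = restrictSupport ℂ (Ew w a b) := by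
    have e : restrictSupport ℂ (Ew w a b) = weightedHomogeneousSubmodule ℂ w (a + b, b) := by
      rw [weightedHomogeneousSubmodule_eq_finsupp_supported]
      rfl
    apply le_antisymm
    · rw [e]
      rintro _ ⟨p, hp, rfl⟩
      have h2 := phi_comp hl hr a b p
      rw [comp_self hp] at h2
      show φ p ∈ _
      rw [h2]
      exact weightedHomogeneousComponent_mem _ _ _
    · rw [restrictSupport_eq_span, Submodule.span_le]
      rintro _ ⟨t, ht, rfl⟩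
      obtain ⟨p, hp, h2⟩ := hs t ht
      refine ⟨p, hp, ?_⟩
      show φ p = monomial t 1
      rw [h2, monomial_eq, Finsupp.prod_fintype _ _ (fun _ => by rw [pow_zero]), C_1, one_mul,
        Fin.prod_univ_four]
  have hfin : (Ew w a b).Finite := by
    rw [himg]
    exact (Finset.finite_toSet _).image _
  rw [hf_ker, h1]
  have := hfin.to_subtype
  have := Fintype.ofFinite (Ew w a b)
  rw [Module.finrank_eq_card_basis (basisRestrictSupport ℂ (Ew w a b))]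
  have h3 : Fintype.card (Ew w a b) = (J a' b').card := by
    rw [← Set.toFinset_card, ← Set.ncard_eq_toFinset_card', himg, hg.ncard_image,
      Set.ncard_coe_finset]
  rw [h3, card_J]

/-- Exponents from numbers. -/
noncomputable def ex4 (a b c d : ℕ) : Fin 4 →₀ ℕ := Finsupp.equivFunOnFinite.symm ![a, b, c, d]

theorem ex4_0 (a b c d : ℕ) : ex4 a b c d 0 = a := rfl
theorem ex4_1 (a b c d : ℕ) : ex4 a b c d 1 = b := rfl
theorem ex4_2 (a b c d : ℕ) : ex4 a b c d 2 = c := rfl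
theorem ex4_3 (a b c d : ℕ) : ex4 a b c d 3 = d := rfl

theorem eq_ex4 (t : Fin 4 →₀ ℕ) (a b c d : ℕ) (h0 : t 0 = a) (h1 : t 1 = b) (h2 : t 2 = c)
    (h3 : t 3 = d) : ex4 a b c d = t := by
  ext i
  fin_cases i
  · exact h0.symm
  · exact h1.symm
  · exact h2.symm
  · exact h3.symm

theorem mem_J (a b : ℕ) (x : Σ _ : ℕ, ℕ) : x ∈ J a b ↔ x.1 ≤ b ∧ x.2 ≤ a + x.1 := by
  rw [J, Finset.mem_sigma, Finset.mem_range, Finset.mem_range]
  omega

theorem sigma_ext (x y : Σ _ : ℕ, ℕ) (h1 : x.1 = y.1) (h2 : x.2 = y.2) : x = y := by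
  obtain ⟨x1, x2⟩ := x
  obtain ⟨y1, y2⟩ := y
  simp only at h1 h2
  subst h1 h2
  rfl

theorem hasClass_of (P : Ideal (A 6)) (s : Fin 3 → ℝ) (M K : ℕ → ℕ → ℝ)
    (h : ∀ a b n : ℕ, (hf P (n * a) (n * b) : ℝ) =
      (s 0 * (b : ℝ) ^ 2 / 2 + s 1 * a * b + s 2 * (a : ℝ) ^ 2 / 2) * (n : ℝ) ^ 2 +
        M a b * n + K a b) : HasClass P 2 s := by
  refine ⟨fun i hi => ?_, fun a b _ _ => ?_⟩
  · omega
  · rw [form_eq]
    simp only [h]
    exact lim_quad _ _ _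

end Q36.PB
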