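import Mathlib
import Pool.Agent.Q36.PB.Sur

/-!
# The classes of the three surfaces
-/

set_option autoImplicit false

open MvPolynomial Filter Topology

namespace Q36.PB

/-! ## The surface over a point -/

def wA : Fin 4 → ℕ × ℕ := ![(1, 0), (1, 1), (1, 1), (1, 1)]

theorem phiA_l (i : Fin 3) : IsWeightedHomogeneous wA (phiA (X (Sum.inl i))) (1, 0) := by
  rw [phiA, aeval_X]
  fin_cases i
  · exact isWeightedHomogeneous_X ℂ wA 0
  · exact isWeightedHomogeneous_zero _ _ _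
  · exact isWeightedHomogeneous_zero _ _ _

theorem phiA_r (i : Fin 6) : IsWeightedHomogeneous wA (phiA (X (Sum.inr i))) (1, 1) := by
  rw [phiA, aeval_X]
  fin_cases i
  · exact isWeightedHomogeneous_zero _ _ _
  · exact isWeightedHomogeneous_X ℂ wA 1
  · exact isWeightedHomogeneous_X ℂ wA 2
  · exact isWeightedHomogeneous_X ℂ wA 3
  · exact isWeightedHomogeneous_zero _ _ _
  · exact isWeightedHomogeneous_zero _ _ _

theorem mem_EwA (a b : ℕ) (t : Fin 4 →₀ ℕ) :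
    t ∈ Ew wA a b ↔ t 0 = a ∧ t 1 + t 2 + t 3 = b := by
  show Finsupp.weight wA t = (a + b, b) ↔ _
  rw [weight4, Prod.mk.injEq]
  simp only [wA, Matrix.cons_val]
  omega

theorem hfA (a b : ℕ) : (hf (RingHom.ker phiA) a b : ℝ) = (b + 1) * (2 * (0 : ℕ) + 2 + b) / 2 := by
  refine hf_surface phiA wA phiA_l phiA_r a b ?_ (fun x => ex4 a x.2 (x.1 - x.2) (b - x.1)) 0 b
    ?_ ?_
  · intro t ht
    rw [mem_EwA] at ht
    refine ⟨_, mono_mem ![a, 0, 0] ![0, t 1, t 2, t 3, 0, 0] (by simp [Fin.sum_univ_three])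
      (by simp [Fin.sum_univ_six, ht.2]), ?_⟩
    simp only [map_mul, map_pow, phiA, aeval_X, Fin.prod_univ_three, Fin.prod_univ_six,
      Sum.elim_inl, Sum.elim_inr, Matrix.cons_val, ht.1]
    ring
  · intro x hx y hy hxy
    rw [Finset.mem_coe, mem_J] at hx hy
    have h1 := DFunLike.congr_fun hxy 1
    have h3 := DFunLike.congr_fun hxy 3
    simp only [ex4_1, ex4_3] at h1 h3
    exact sigma_ext _ _ (by omega) h1
  · ext t
    rw [mem_EwA]
    constructor
    · intro h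
      refine ⟨⟨t 1 + t 2, t 1⟩, ?_, ?_⟩
      · rw [Finset.mem_coe, mem_J]
        simp only
        omega
      · exact eq_ex4 _ _ _ _ _ h.1 rfl (by simp only; omega) (by simp only; omega)
    · rintro ⟨x, hx, rfl⟩
      rw [Finset.mem_coe, mem_J] at hx
      refine ⟨rfl, ?_⟩
      simp only [ex4_1, ex4_2, ex4_3]
      omega

theorem sfa (_h1 : S_GRK) (_h2 : S_FIN) : S_SFA := by
  obtain ⟨h1, h2, -⟩ := grk 6 (Fin 4) wA phiA phiA_l phiA_r
  refine ⟨h1, h2, ?_, ?_⟩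
  · refine ⟨?_, ?_, ?_, ?_⟩ <;> rw [RingHom.mem_ker] <;>
      simp only [map_add, map_sub, map_mul, map_pow, phiA, aeval_X, Sum.elim_inl, Sum.elim_inr,
        Matrix.cons_val] <;> ring
  · refine hasClass_of _ _ (fun _ b => 3 * b / 2) (fun _ _ => 1) fun a b n => ?_
    rw [hfA]
    simp only [Matrix.cons_val]
    push_cast
    ring

/-! ## The surface over a line -/

def wB : Fin 4 → ℕ × ℕ := ![(1, 0), (1, 0), (1, 1), (0, 1)]

theorem phiB_l (i : Fin 3) : IsWeightedHomogeneous wB (phiB (X (Sum.inl i))) (1, 0) := by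
  rw [phiB, aeval_X]
  fin_cases i
  · exact isWeightedHomogeneous_zero _ _ _
  · exact isWeightedHomogeneous_X ℂ wB 0
  · exact isWeightedHomogeneous_X ℂ wB 1

theorem phiB_r (i : Fin 6) : IsWeightedHomogeneous wB (phiB (X (Sum.inr i))) (1, 1) := by
  rw [phiB, aeval_X]
  fin_cases i
  · exact isWeightedHomogeneous_X ℂ wB 2
  · exact isWeightedHomogeneous_zero _ _ _
  · exact isWeightedHomogeneous_zero _ _ _
  · exact isWeightedHomogeneous_zero _ _ _
  · exact (isWeightedHomogeneous_X ℂ wB 3).mul (isWeightedHomogeneous_X ℂ wB 0)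
  · exact (isWeightedHomogeneous_X ℂ wB 3).mul (isWeightedHomogeneous_X ℂ wB 1)

theorem mem_EwB (a b : ℕ) (t : Fin 4 →₀ ℕ) :
    t ∈ Ew wB a b ↔ t 0 + t 1 = a + t 3 ∧ t 2 + t 3 = b := by
  show Finsupp.weight wB t = (a + b, b) ↔ _
  rw [weight4, Prod.mk.injEq]
  simp only [wB, Matrix.cons_val]
  omega

theorem hfB (a b : ℕ) : (hf (RingHom.ker phiB) a b : ℝ) = (b + 1) * (2 * a + 2 + b) / 2 := by
  refine hf_surface phiB wB phiB_l phiB_r a b ?_
    (fun x => ex4 x.2 (a + x.1 - x.2) (b - x.1) x.1) a b ?_ ?_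
  · intro t ht
    rw [mem_EwB] at ht
    obtain ⟨r0, s0, r1, s1, e0, e1, e2, e3⟩ : ∃ r0 s0 r1 s1 : ℕ, t 0 = r0 + s0 ∧ t 1 = r1 + s1 ∧
        r0 + r1 = a ∧ s0 + s1 = t 3 :=
      ⟨min (t 0) a, t 0 - min (t 0) a, a - min (t 0) a, t 1 - (a - min (t 0) a), by omega, by omega,
        by omega, by omega⟩
    refine ⟨_, mono_mem ![0, r0, r1] ![t 2, 0, 0, 0, s0, s1] (by simp [Fin.sum_univ_three, e2])
      (by simp [Fin.sum_univ_six]; omega), ?_⟩
    simp only [map_mul, map_pow, phiB, aeval_X, Fin.prod_univ_three, Fin.prod_univ_six,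
      Sum.elim_inl, Sum.elim_inr, Matrix.cons_val, e0, e1, ← e3]
    ring
  · intro x hx y hy hxy
    rw [Finset.mem_coe, mem_J] at hx hy
    have h1 := DFunLike.congr_fun hxy 0
    have h3 := DFunLike.congr_fun hxy 3
    simp only [ex4_0, ex4_3] at h1 h3
    exact sigma_ext _ _ h3 h1
  · ext t
    rw [mem_EwB]
    constructor
    · intro h
      refine ⟨⟨t 3, t 0⟩, ?_, ?_⟩
      · rw [Finset.mem_coe, mem_J]
        simp only
        omega
      · exact eq_ex4 _ _ _ _ _ rfl (by simp only; omega) (by simp only; omega) rfl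
    · rintro ⟨x, hx, rfl⟩
      rw [Finset.mem_coe, mem_J] at hx
      simp only [ex4_0, ex4_1, ex4_2, ex4_3]
      omega

theorem sfb (_h1 : S_GRK) (_h2 : S_FIN) : S_SFB := by
  obtain ⟨h1, h2, -⟩ := grk 6 (Fin 4) wB phiB phiB_l phiB_r
  refine ⟨h1, h2, ?_, ?_⟩
  · refine ⟨?_, ?_, ?_, ?_⟩ <;> rw [RingHom.mem_ker] <;>
      simp only [map_add, map_sub, map_mul, map_pow, phiB, aeval_X, Sum.elim_inl, Sum.elim_inr,
        Matrix.cons_val] <;> ring
  · refine hasClass_of _ _ (fun a b => a + 3 * b / 2) (fun _ _ => 1) fun a b n => ?_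
    rw [hfB]
    simp only [Matrix.cons_val]
    push_cast
    ring

/-! ## The section -/

def wD : Fin 4 → ℕ × ℕ := ![(1, 0), (1, 0), (1, 0), (0, 1)]

theorem phiD_l (i : Fin 3) : IsWeightedHomogeneous wD (phiD (X (Sum.inl i))) (1, 0) := by
  rw [phiD, aeval_X]
  fin_cases i
  · exact isWeightedHomogeneous_X ℂ wD 0
  · exact isWeightedHomogeneous_X ℂ wD 1
  · exact isWeightedHomogeneous_X ℂ wD 2

theorem phiD_r (i : Fin 6) : IsWeightedHomogeneous wD (phiD (X (Sum.inr i))) (1, 1) := by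
  rw [phiD, aeval_X]
  fin_cases i
  · exact isWeightedHomogeneous_zero _ _ _
  · exact isWeightedHomogeneous_zero _ _ _
  · exact isWeightedHomogeneous_zero _ _ _
  · exact (isWeightedHomogeneous_X ℂ wD 3).mul (isWeightedHomogeneous_X ℂ wD 0)
  · exact (isWeightedHomogeneous_X ℂ wD 3).mul (isWeightedHomogeneous_X ℂ wD 1)
  · exact (isWeightedHomogeneous_X ℂ wD 3).mul (isWeightedHomogeneous_X ℂ wD 2)

theorem mem_EwD (a b : ℕ) (t : Fin 4 →₀ ℕ) :
    t ∈ Ew wD a b ↔ t 0 + t 1 + t 2 = a + b ∧ t 3 = b := by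
  show Finsupp.weight wD t = (a + b, b) ↔ _
  rw [weight4, Prod.mk.injEq]
  simp only [wD, Matrix.cons_val]
  omega

theorem hfD (a b : ℕ) : (hf (RingHom.ker phiD) a b : ℝ) =
    ((a + b : ℕ) + 1) * (2 * (0 : ℕ) + 2 + (a + b : ℕ)) / 2 := by
  refine hf_surface phiD wD phiD_l phiD_r a b ?_
    (fun x => ex4 x.2 (x.1 - x.2) (a + b - x.1) b) 0 (a + b) ?_ ?_
  · intro t ht
    rw [mem_EwD] at ht
    obtain ⟨r0, s0, r1, s1, r2, s2, e0, e1, e2, e3, e4⟩ : ∃ r0 s0 r1 s1 r2 s2 : ℕ,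
        t 0 = r0 + s0 ∧ t 1 = r1 + s1 ∧ t 2 = r2 + s2 ∧ r0 + r1 + r2 = a ∧ s0 + s1 + s2 = b := by
      refine ⟨min (t 0) a, t 0 - min (t 0) a, min (t 1) (a - min (t 0) a),
        t 1 - min (t 1) (a - min (t 0) a), a - min (t 0) a - min (t 1) (a - min (t 0) a),
        t 2 - (a - min (t 0) a - min (t 1) (a - min (t 0) a)), ?_, ?_, ?_, ?_, ?_⟩ <;> omega
    refine ⟨_, mono_mem ![r0, r1, r2] ![0, 0, 0, s0, s1, s2]
      (by simp [Fin.sum_univ_three]; omega) (by simp [Fin.sum_univ_six]; omega), ?_⟩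
    simp only [map_mul, map_pow, phiD, aeval_X, Fin.prod_univ_three, Fin.prod_univ_six,
      Sum.elim_inl, Sum.elim_inr, Matrix.cons_val, e0, e1, e2, ht.2, ← e4]
    ring
  · intro x hx y hy hxy
    rw [Finset.mem_coe, mem_J] at hx hy
    have h0 := DFunLike.congr_fun hxy 0
    have h2 := DFunLike.congr_fun hxy 2
    simp only [ex4_0, ex4_2] at h0 h2
    exact sigma_ext _ _ (by omega) h0
  · ext t
    rw [mem_EwD]
    constructor
    · intro h
      refine ⟨⟨t 0 + t 1, t 0⟩, ?_, ?_⟩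
      · rw [Finset.mem_coe, mem_J]
        simp only
        omega
      · exact eq_ex4 _ _ _ _ _ rfl (by simp only; omega) (by simp only; omega) h.2
    · rintro ⟨x, hx, rfl⟩
      rw [Finset.mem_coe, mem_J] at hx
      refine ⟨?_, rfl⟩
      simp only [ex4_0, ex4_1, ex4_2]
      omega

theorem sfd (_h1 : S_GRK) (_h2 : S_FIN) : S_SFD := by
  obtain ⟨h1, h2, -⟩ := grk 6 (Fin 4) wD phiD phiD_l phiD_r
  refine ⟨h1, h2, ?_, ?_⟩
  · refine ⟨?_, ?_, ?_, ?_⟩ <;> rw [RingHom.mem_ker] <;>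
      simp only [map_add, map_sub, map_mul, map_pow, phiD, aeval_X, Sum.elim_inl, Sum.elim_inr,
        Matrix.cons_val] <;> ring
  · refine hasClass_of _ _ (fun a b => 3 * (a + b) / 2) (fun _ _ => 1) fun a b n => ?_
    rw [hfD]
    simp only [Matrix.cons_val]
    push_cast
    ring

end Q36.PB
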