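import Mathlib
import Pool.Agent.Q36.PB.Grk

/-!
# Transfer between the two coordinate rings
-/

set_option autoImplicit false

open MvPolynomial Filter Topology

namespace Q36.PB

theorem deg_monomial {N M : ℕ} {φ : A N →ₐ[ℂ] A M}
    (h : ∀ i, IsWeightedHomogeneous (wt M) (φ (X i)) (wt N i))
    (m : Fin 3 ⊕ Fin N →₀ ℕ) (c : ℂ) :
    IsWeightedHomogeneous (wt M) (φ (monomial m c)) (Finsupp.weight (wt N) m) := by
  have h1 : (monomial m c : A N) = c • ∏ i, X i ^ m i := by
    rw [monomial_eq, smul_eq_C_mul, Finsupp.prod_fintype _ _ (fun _ => by rw [pow_zero])]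
  have h2 : IsWeightedHomogeneous (wt M) (∏ i, φ (X i) ^ m i) (∑ i, m i • wt N i) :=
    IsWeightedHomogeneous.prod _ _ _ fun i _ => (h i).pow _
  rw [h1, map_smul, map_prod]
  simp only [map_pow]
  rw [smul_eq_C_mul, Finsupp.weight_apply, Finsupp.sum_fintype _ _ (fun _ => by simp)]
  exact IsWeightedHomogeneous.C_mul h2 c

theorem deg_comp {N M : ℕ} {φ : A N →ₐ[ℂ] A M}
    (h : ∀ i, IsWeightedHomogeneous (wt M) (φ (X i)) (wt N i)) (d : ℕ × ℕ) (p : A N) :
    φ (weightedHomogeneousComponent (wt N) d p) =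
      weightedHomogeneousComponent (wt M) d (φ p) := by
  induction p using MvPolynomial.induction_on' with
  | monomial m c =>
    have h1 := deg_monomial h m c
    have h2 : IsWeightedHomogeneous (wt N) (monomial m c) (Finsupp.weight (wt N) m) :=
      isWeightedHomogeneous_monomial _ _ _ rfl
    by_cases hd : Finsupp.weight (wt N) m = d
    · rw [hd] at h1 h2
      rw [h1.weightedHomogeneousComponent_same, h2.weightedHomogeneousComponent_same]
    · rw [h2.weightedHomogeneousComponent_ne _ (Ne.symm hd),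
        h1.weightedHomogeneousComponent_ne _ (Ne.symm hd), map_zero]
  | add p q hp hq => rw [map_add, map_add, map_add, map_add, hp, hq]

theorem deg_mem {N M : ℕ} {φ : A N →ₐ[ℂ] A M}
    (h : ∀ i, IsWeightedHomogeneous (wt M) (φ (X i)) (wt N i)) {a b : ℕ} {p : A N}
    (hp : p ∈ bi N a b) : φ p ∈ bi M a b := by
  have h1 := deg_comp h (a, b) p
  rw [comp_self hp] at h1
  rw [h1]
  exact weightedHomogeneousComponent_mem _ _ _

/-- The inclusion `A 3 → A 6`. -/
noncomputable def inc : A 3 →ₐ[ℂ] A 6 :=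
  aeval (Sum.elim (fun i => X (Sum.inl i)) ![X (Sum.inr 0), X (Sum.inr 1), X (Sum.inr 2)])

theorem pr_deg (i : Fin 3 ⊕ Fin 6) : IsWeightedHomogeneous (wt 3) (pr (X i)) (wt 6 i) := by
  rw [pr, aeval_X]
  rcases i with i | j
  · exact isWeightedHomogeneous_X ℂ (wt 3) (Sum.inl i)
  · have hX : ∀ j : Fin 3, IsWeightedHomogeneous (wt 3) (X (Sum.inr j) : A 3) (0, 1) := fun j =>
      isWeightedHomogeneous_X ℂ (wt 3) (Sum.inr j)
    have hz : IsWeightedHomogeneous (wt 3) (0 : A 3) (0, 1) := isWeightedHomogeneous_zero _ _ _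
    fin_cases j
    · exact hX 0
    · exact hX 1
    · exact hX 2
    · exact hz
    · exact hz
    · exact hz

theorem inc_deg (i : Fin 3 ⊕ Fin 3) : IsWeightedHomogeneous (wt 6) (inc (X i)) (wt 3 i) := by
  rw [inc, aeval_X]
  rcases i with i | j
  · exact isWeightedHomogeneous_X ℂ (wt 6) (Sum.inl i)
  · have hX : ∀ j : Fin 6, IsWeightedHomogeneous (wt 6) (X (Sum.inr j) : A 6) (0, 1) := fun j =>
      isWeightedHomogeneous_X ℂ (wt 6) (Sum.inr j)
    fin_cases j
    · exact hX 0
    · exact hX 1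
    · exact hX 2

theorem pr_inc (p : A 3) : pr (inc p) = p := by
  have : (pr.comp inc) = AlgHom.id ℂ (A 3) := by
    apply MvPolynomial.algHom_ext
    intro i
    rw [AlgHom.comp_apply, inc, aeval_X]
    rcases i with i | j
    · show pr (X (Sum.inl i)) = _
      rw [pr, aeval_X]
      rfl
    · fin_cases j
      · show pr (X (Sum.inr 0)) = _
        rw [pr, aeval_X]
        rfl
      · show pr (X (Sum.inr 1)) = _
        rw [pr, aeval_X]
        rfl
      · show pr (X (Sum.inr 2)) = _
        rw [pr, aeval_X]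
        rfl
  exact DFunLike.congr_fun this p

theorem map_pr (a b : ℕ) : (bi 6 a b).map pr.toLinearMap = bi 3 a b := by
  apply le_antisymm
  · rintro _ ⟨p, hp, rfl⟩
    exact deg_mem pr_deg hp
  · intro p hp
    exact ⟨inc p, deg_mem inc_deg hp, pr_inc p⟩

theorem trh : S_TRH := by
  refine ⟨?_, ?_, ?_⟩
  · intro P a b
    have h1 : P.comap pr.toRingHom = RingHom.ker ((Ideal.Quotient.mkₐ ℂ P).comp pr) := by
      ext x
      rw [Ideal.mem_comap, RingHom.mem_ker]
      exact Ideal.Quotient.eq_zero_iff_mem.symm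
    have h2 : (bi 6 a b).map ((Ideal.Quotient.mkₐ ℂ P).comp pr).toLinearMap =
        (bi 3 a b).map (Ideal.Quotient.mkₐ ℂ P).toLinearMap := by
      rw [← map_pr a b, ← Submodule.map_comp]
      rfl
    rw [h1, hf_ker, h2, hf]
  · intro P
    constructor
    · intro h p hp d
      have h1 : inc p ∈ P.comap pr.toRingHom := by
        show pr (inc p) ∈ P
        rwa [pr_inc]
      have h2 : pr (weightedHomogeneousComponent (wt 6) d (inc p)) ∈ P := h _ h1 d
      rwa [deg_comp pr_deg, pr_inc] at h2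
    · intro h p hp d
      show pr (weightedHomogeneousComponent (wt 6) d p) ∈ P
      rw [deg_comp pr_deg]
      exact h _ hp d
  · intro P h3 h4 h5
    refine ⟨P.comap inc.toRingHom, ?_⟩
    have key : (Ideal.Quotient.mkₐ ℂ P).comp (inc.comp pr) = Ideal.Quotient.mkₐ ℂ P := by
      apply MvPolynomial.algHom_ext
      intro i
      rw [AlgHom.comp_apply, AlgHom.comp_apply, pr, aeval_X]
      rcases i with i | j
      · show Ideal.Quotient.mkₐ ℂ P (inc (X (Sum.inl i))) = _
        rw [inc, aeval_X]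
        rfl
      · fin_cases j
        · show Ideal.Quotient.mkₐ ℂ P (inc (X (Sum.inr 0))) = _
          rw [inc, aeval_X]
          rfl
        · show Ideal.Quotient.mkₐ ℂ P (inc (X (Sum.inr 1))) = _
          rw [inc, aeval_X]
          rfl
        · show Ideal.Quotient.mkₐ ℂ P (inc (X (Sum.inr 2))) = _
          rw [inc, aeval_X]
          rfl
        · show Ideal.Quotient.mkₐ ℂ P (inc 0) = Ideal.Quotient.mk P (X (Sum.inr 3))
          rw [map_zero, map_zero, Ideal.Quotient.eq_zero_iff_mem.2 h3]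
        · show Ideal.Quotient.mkₐ ℂ P (inc 0) = Ideal.Quotient.mk P (X (Sum.inr 4))
          rw [map_zero, map_zero, Ideal.Quotient.eq_zero_iff_mem.2 h4]
        · show Ideal.Quotient.mkₐ ℂ P (inc 0) = Ideal.Quotient.mk P (X (Sum.inr 5))
          rw [map_zero, map_zero, Ideal.Quotient.eq_zero_iff_mem.2 h5]
    ext p
    have h1 : Ideal.Quotient.mk P (inc (pr p)) = Ideal.Quotient.mk P p :=
      DFunLike.congr_fun key p
    show p ∈ P ↔ inc (pr p) ∈ P
    rw [← Ideal.Quotient.eq_zero_iff_mem, ← h1, Ideal.Quotient.eq_zero_iff_mem]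

end Q36.PB
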